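import Pool.Agent.Lib.MP_f82811_pr.Ising

/-!
# Gauge transformations, bridges, and quasi-concavity of the gap in one coupling
-/

set_option autoImplicit false

namespace Pool.Agent.Lib.MP_f82811_pr

open Finset

variable {V : Type*} [Fintype V] [DecidableEq V]

/-- Flip the spins in the set with indicator `S`. -/
def gauge (S : V → Bool) (σ : V → Bool) : V → Bool := fun i => xor (S i) (σ i)

omit [Fintype V] [DecidableEq V] in
theorem gauge_gauge (S σ : V → Bool) : gauge S (gauge S σ) = σ := by
  funext i
  unfold gauge
  cases S i <;> cases σ i <;> rfl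

omit [Fintype V] in
theorem gauge_flip (S : V → Bool) (v : V) (σ : V → Bool) :
    gauge S (flip v σ) = flip v (gauge S σ) := by
  funext i
  by_cases h : i = v
  · subst h
    change xor (S i) (flip i σ i) = flip i (gauge S σ) i
    unfold flip
    rw [Function.update_self, Function.update_self]
    change xor (S i) (!σ i) = !(xor (S i) (σ i))
    cases S i <;> cases σ i <;> rfl
  · change xor (S i) (flip v σ i) = flip v (gauge S σ) i
    unfold flip
    rw [Function.update_of_ne h, Function.update_of_ne h]
    rfl

omit [Fintype V] [DecidableEq V] in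
theorem gauge_neg (S σ : V → Bool) : gauge S (neg σ) = neg (gauge S σ) := by
  funext i
  change xor (S i) (!σ i) = !(xor (S i) (σ i))
  cases S i <;> cases σ i <;> rfl

theorem sum_gauge (S : V → Bool) (F : (V → Bool) → ℝ) : ∑ σ, F (gauge S σ) = ∑ σ, F σ :=
  Function.Bijective.sum_comp (Function.Involutive.bijective (f := gauge S) (gauge_gauge S)) F

theorem dir_gauge (w : (V → Bool) → ℝ) (S : V → Bool) (f : (V → Bool) → ℝ) :
    dir (fun σ => w (gauge S σ)) f = dir w (fun σ => f (gauge S σ)) := by
  unfold dir
  rw [← sum_gauge S (fun σ => ∑ v, w σ * w (flip v σ) / (w σ + w (flip v σ)) *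
    (f (gauge S σ) - f (gauge S (flip v σ))) ^ 2)]
  refine Finset.sum_congr rfl fun σ _ => Finset.sum_congr rfl fun v _ => ?_
  rw [gauge_gauge, gauge_flip S v (gauge S σ), gauge_gauge, ← gauge_flip]

theorem ip_gauge (w : (V → Bool) → ℝ) (S : V → Bool) (f g : (V → Bool) → ℝ) :
    ip (fun σ => w (gauge S σ)) f g = ip w (fun σ => f (gauge S σ)) (fun σ => g (gauge S σ)) := by
  unfold ip
  rw [← sum_gauge S (fun σ => w σ * (f (gauge S σ) * g (gauge S σ)))]
  refine Finset.sum_congr rfl fun σ _ => ?_
  rw [gauge_gauge]

omit [Fintype V] [DecidableEq V] in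
theorem odd_gauge (S : V → Bool) {g : (V → Bool) → ℝ} (hg : Odd' g) :
    Odd' (fun σ => g (gauge S σ)) := by
  intro σ
  change g (gauge S (neg σ)) = -g (gauge S σ)
  rw [gauge_neg]
  exact hg _

/-- The Poincare inequality on odd functions is invariant under gauge transformations. -/
theorem odd_poincare_gauge {w : (V → Bool) → ℝ} {lam : ℝ} (S : V → Bool)
    (h : ∀ g : (V → Bool) → ℝ, Odd' g → lam * ip w g g ≤ dir w g) :
    ∀ g : (V → Bool) → ℝ, Odd' g →
      lam * ip (fun σ => w (gauge S σ)) g g ≤ dir (fun σ => w (gauge S σ)) g := by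
  intro g hg
  rw [dir_gauge, ip_gauge]
  exact h _ (odd_gauge S hg)

variable (G : SimpleGraph V) [DecidableRel G.Adj] (J : Sym2 V → ℝ)

omit [DecidableEq V] in
theorem weight_congr {J J' : Sym2 V → ℝ} (h : ∀ e ∈ G.edgeSet, J e = J' e) :
    weight G J = weight G J' := by
  funext σ
  unfold weight
  congr 1
  exact Finset.sum_congr rfl fun e he => by rw [h e (SimpleGraph.mem_edgeFinset.1 he)]

/-- The vertices on the `a`-side of the edge `e`. -/
noncomputable def side (e : Sym2 V) (a : V) (i : V) : Bool := by
  classical exact decide ((G.deleteEdges {e}).Reachable a i)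

omit [Fintype V] [DecidableEq V] [DecidableRel G.Adj] in
theorem bond_gauge_of_eq (S σ : V → Bool) {i j : V} (h : S i = S j) :
    bond (gauge S σ) s(i, j) = bond σ s(i, j) := by
  rw [bond_mk, bond_mk]
  unfold gauge
  rw [h]
  cases S j <;> cases σ i <;> cases σ j <;> simp [spin]

omit [Fintype V] [DecidableEq V] [DecidableRel G.Adj] in
theorem bond_gauge_of_ne (S σ : V → Bool) {i j : V} (h : S i = true) (h' : S j = false) :
    bond (gauge S σ) s(i, j) = -bond σ s(i, j) := by
  rw [bond_mk, bond_mk]
  unfold gauge
  rw [h, h']
  cases σ i <;> cases σ j <;> simp [spin]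

/-- Changing the sign of the coupling of a bridge is a gauge transformation. -/
theorem weight_bridge {a b : V} (hab : G.Adj a b) (hbr : G.IsBridge s(a, b)) (y : ℝ)
    (σ : V → Bool) :
    weight G (Function.update J s(a, b) (-y)) σ =
      weight G (Function.update J s(a, b) y) (gauge (side G s(a, b) a) σ) := by
  have he : s(a, b) ∈ G.edgeSet := hab
  have hSa : side G s(a, b) a a = true := by
    unfold side
    simp only [decide_eq_true_eq]
    exact SimpleGraph.Reachable.refl _
  have hSb : side G s(a, b) a b = false := by
    unfold side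
    simp only [decide_eq_false_iff_not]
    exact SimpleGraph.isBridge_iff.1 hbr
  rw [weight_update G J _ he, weight_update G J _ he, bond_gauge_of_ne _ _ hSa hSb]
  congr 1
  · congr 1
    refine Finset.sum_congr rfl fun e' he' => ?_
    have hne : e' ≠ s(a, b) := Finset.ne_of_mem_erase he'
    have hmem : e' ∈ G.edgeSet := SimpleGraph.mem_edgeFinset.1 (Finset.mem_of_mem_erase he')
    induction e' with
    | h i j =>
      rw [bond_gauge_of_eq]
      have hadj : (G.deleteEdges {s(a, b)}).Adj i j := by
        rw [SimpleGraph.deleteEdges_adj]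
        exact ⟨hmem, hne⟩
      unfold side
      simp only [decide_eq_decide]
      exact ⟨fun h => h.trans hadj.reachable, fun h => h.trans hadj.reachable.symm⟩
  · congr 1
    ring

/-- Quasi-concavity of the gap in one coupling. -/
theorem gap_quasiconcave [Nonempty V] (e : Sym2 V) (he : e ∈ G.edgeSet)
    (hJ : ∀ e' ∈ G.edgeSet, 0 ≤ J e') {x y z : ℝ} (hx : 0 ≤ x) (hxy : x ≤ y) (hyz : y ≤ z) :
    min (gap (gibbs G (Function.update J e x))) (gap (gibbs G (Function.update J e z))) ≤
      gap (gibbs G (Function.update J e y)) := by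
  rcases (hxy.trans hyz).eq_or_lt with hxz | hxz
  · have hy : y = x := le_antisymm (hyz.trans hxz.ge) hxy
    rw [hy]
    exact min_le_left _ _
  have hn : (0 : ℝ) < Fintype.card V := by exact_mod_cast Fintype.card_pos
  set lam := 2 * (Fintype.card V : ℝ) *
    min (gap (gibbs G (Function.update J e x))) (gap (gibbs G (Function.update J e z))) with hlam
  have hJy : ∀ e' ∈ G.edgeSet, 0 ≤ Function.update J e y e' := by
    intro e' he'
    by_cases h : e' = e
    · subst h
      rw [Function.update_self]
      exact hx.trans hxy
    · rw [Function.update_of_ne h]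
      exact hJ e' he'
  have hs : 0 < Real.sinh (z - x) := Real.sinh_pos_iff.2 (sub_pos.2 hxz)
  have hα : 0 ≤ Real.sinh (z - y) / Real.sinh (z - x) :=
    div_nonneg (Real.sinh_nonneg_iff.2 (sub_nonneg.2 hyz)) hs.le
  have hβ : 0 ≤ Real.sinh (y - x) / Real.sinh (z - x) :=
    div_nonneg (Real.sinh_nonneg_iff.2 (sub_nonneg.2 hxy)) hs.le
  have key : lam ≤ 2 * (Fintype.card V : ℝ) *
      gap (normalize (weight G (Function.update J e y))) := by
    apply le_gap_of_combination (u := weight G (Function.update J e x))
      (v := weight G (Function.update J e z)) (weight_pos _ _) (weight_pos _ _)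
      (weight_pos _ _) hα hβ _ (weight_neg _ _) (weight_fkg _ _ hJy)
    · intro g hg
      refine le_trans ?_ (odd_poincare G _ hg)
      apply mul_le_mul_of_nonneg_right _ (ip_self_nonneg (weight_pos _ _) g)
      rw [hlam]
      exact mul_le_mul_of_nonneg_left (min_le_left _ _) (by positivity)
    · intro g hg
      refine le_trans ?_ (odd_poincare G _ hg)
      apply mul_le_mul_of_nonneg_right _ (ip_self_nonneg (weight_pos _ _) g)
      rw [hlam]
      exact mul_le_mul_of_nonneg_left (min_le_right _ _) (by positivity)
    · intro σ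
      rw [weight_update G J e he, weight_update G J e he, weight_update G J e he,
        exp_combination hxz (bond_sq σ e)]
      ring
  rw [← gibbs_eq, hlam] at key
  exact le_of_mul_le_mul_left key (by positivity)

/-- Monotonicity in the coupling of a bridge. -/
theorem gap_bridge [Nonempty V] (e : Sym2 V) (he : e ∈ G.edgeSet) (hbr : G.IsBridge e)
    (hJ : ∀ e' ∈ G.edgeSet, 0 ≤ J e') {x y : ℝ} (hx : 0 ≤ x) (hxy : x ≤ y) :
    gap (gibbs G (Function.update J e y)) ≤ gap (gibbs G (Function.update J e x)) := by
  rcases (hx.trans hxy).eq_or_lt with hy | hy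
  · have : x = y := le_antisymm hxy (hy ▸ hx)
    rw [this]
  have hn : (0 : ℝ) < Fintype.card V := by exact_mod_cast Fintype.card_pos
  have hJx : ∀ e' ∈ G.edgeSet, 0 ≤ Function.update J e x e' := by
    intro e' he'
    by_cases h : e' = e
    · subst h
      rw [Function.update_self]
      exact hx
    · rw [Function.update_of_ne h]
      exact hJ e' he'
  have hlt : -y < y := by linarith
  have hs : 0 < Real.sinh (y - -y) := Real.sinh_pos_iff.2 (sub_pos.2 hlt)
  have hα : 0 ≤ Real.sinh (y - x) / Real.sinh (y - -y) :=
    div_nonneg (Real.sinh_nonneg_iff.2 (sub_nonneg.2 hxy)) hs.le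
  have hβ : 0 ≤ Real.sinh (x - -y) / Real.sinh (y - -y) :=
    div_nonneg (Real.sinh_nonneg_iff.2 (by linarith)) hs.le
  induction e with
  | h a b =>
    have hu : (fun σ => weight G (Function.update J s(a, b) y)
        (gauge (side G s(a, b) a) σ)) = weight G (Function.update J s(a, b) (-y)) := by
      funext σ
      exact (weight_bridge G J he hbr y σ).symm
    have key : 2 * (Fintype.card V : ℝ) * gap (gibbs G (Function.update J s(a, b) y)) ≤
        2 * (Fintype.card V : ℝ) *
          gap (normalize (weight G (Function.update J s(a, b) x))) := by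
      apply le_gap_of_combination (u := weight G (Function.update J s(a, b) (-y)))
        (v := weight G (Function.update J s(a, b) y)) (weight_pos _ _) (weight_pos _ _)
        (weight_pos _ _) hα hβ _ (weight_neg _ _) (weight_fkg _ _ hJx)
      · rw [← hu]
        exact odd_poincare_gauge _ fun g hg => odd_poincare G _ hg
      · exact fun g hg => odd_poincare G _ hg
      · intro σ
        rw [weight_update G J _ he, weight_update G J _ he, weight_update G J _ he,
          exp_combination hlt (bond_sq σ s(a, b))]
        ring
    rw [← gibbs_eq] at key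
    exact le_of_mul_le_mul_left key (by positivity)

/-- Monotonicity when only the couplings of bridges are changed. -/
theorem gap_bridges [Nonempty V] {J J' : Sym2 V → ℝ} (hJ : ∀ e ∈ G.edgeSet, 0 ≤ J e)
    (hJJ' : ∀ e ∈ G.edgeSet, J e ≤ J' e)
    (hbr : ∀ e ∈ G.edgeSet, J e ≠ J' e → G.IsBridge e) :
    gap (gibbs G J') ≤ gap (gibbs G J) := by
  have main : ∀ s : Finset (Sym2 V), s ⊆ G.edgeFinset →
      gap (gibbs G (fun e => if e ∈ s then J' e else J e)) ≤ gap (gibbs G J) := by
    intro s
    induction s using Finset.induction with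
    | empty =>
      intro _
      simp
    | insert e s hes ih =>
      intro hsub
      have he : e ∈ G.edgeSet := SimpleGraph.mem_edgeFinset.1 (hsub (Finset.mem_insert_self _ _))
      have hs : s ⊆ G.edgeFinset := fun x hx => hsub (Finset.mem_insert_of_mem hx)
      refine le_trans ?_ (ih hs)
      have e1 : (fun e' => if e' ∈ insert e s then J' e' else J e') =
          Function.update (fun e' => if e' ∈ s then J' e' else J e') e (J' e) := by
        funext e'
        by_cases h : e' = e
        · subst h
          simp
        · rw [Function.update_of_ne h]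
          simp [Finset.mem_insert, h]
      have e2 : (fun e' => if e' ∈ s then J' e' else J e') =
          Function.update (fun e' => if e' ∈ s then J' e' else J e') e (J e) := by
        funext e'
        by_cases h : e' = e
        · subst h
          simp [hes]
        · rw [Function.update_of_ne h]
      by_cases hne : J e = J' e
      · rw [e1, ← hne, ← e2]
      · rw [e1]
        conv_rhs => rw [e2]
        apply gap_bridge G _ e he (hbr e he hne) _ (hJ e he) (hJJ' e he)
        intro e' he'
        by_cases h : e' ∈ s
        · simp only [h, if_true]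
          exact (hJ e' he').trans (hJJ' e' he')
        · simp only [h, if_false]
          exact hJ e' he'
  have h1 := main G.edgeFinset (Finset.Subset.refl _)
  have h2 : weight G (fun e => if e ∈ G.edgeFinset then J' e else J e) = weight G J' := by
    apply weight_congr
    intro e he
    simp only [SimpleGraph.mem_edgeFinset, he, if_true]
  have h3 : gibbs G (fun e => if e ∈ G.edgeFinset then J' e else J e) = gibbs G J' := by
    rw [gibbs_eq, gibbs_eq, h2]
  rw [h3] at h1
  exact h1

/-- On the empty vertex set there is no function of positive variance. -/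
theorem variance_of_isEmpty [IsEmpty V] (J : Sym2 V → ℝ) (f : (V → Bool) → ℝ) :
    variance (gibbs G J) f = 0 := by
  have hsub : Subsingleton (V → Bool) := inferInstance
  have hZ : 0 < ∑ τ : V → Bool, weight G J τ := sum_pos' (weight_pos G J)
  unfold variance
  refine Finset.sum_eq_zero fun σ _ => ?_
  have h1 : ∑ τ : V → Bool, gibbs G J τ * f τ = f σ := by
    have h2 : ∀ τ : V → Bool, f τ = f σ := fun τ => by rw [Subsingleton.elim τ σ]
    have h3 : ∑ τ : V → Bool, gibbs G J τ = 1 := by
      unfold gibbs
      rw [← Finset.sum_div]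
      exact div_self hZ.ne'
    calc ∑ τ : V → Bool, gibbs G J τ * f τ = ∑ τ : V → Bool, gibbs G J τ * f σ :=
          Finset.sum_congr rfl fun τ _ => by rw [h2 τ]
      _ = f σ := by rw [← Finset.sum_mul, h3, one_mul]
  rw [h1, sub_self]
  ring

theorem gap_of_isEmpty [IsEmpty V] (J : Sym2 V → ℝ) : gap (gibbs G J) = 0 := by
  unfold gap
  have : {r : ℝ | ∃ f : (V → Bool) → ℝ, 0 < variance (gibbs G J) f ∧
      r = dirichlet (gibbs G J) f / variance (gibbs G J) f} = ∅ := by
    apply Set.eq_empty_of_forall_notMem
    rintro r ⟨f, hf, _⟩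
    rw [variance_of_isEmpty] at hf
    exact lt_irrefl _ hf
  rw [this, Real.sInf_empty]

end Pool.Agent.Lib.MP_f82811_pr
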