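import Pool.Agent.Lib.MP_f82811_pr.Complete

/-!
# Comparison of gaps through the slowest eigenfunction, and the complete graph
-/

set_option autoImplicit false

namespace Pool.Agent.Lib.MP_f82811_pr

open Finset

variable {V : Type*} [Fintype V] [DecidableEq V] {w w' wb : (V → Bool) → ℝ}

/-- The conditional variance is at most the mean square distance to any function which does not
depend on the spin. -/
theorem ip_sub_ce_le (hw : ∀ σ, 0 < w σ) (k : V) (f u : (V → Bool) → ℝ)
    (hu : ∀ σ, u (flip k σ) = u σ) :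
    ip w f f - ip w f (ce w k f) ≤ ∑ σ, w σ * (f σ - u σ) ^ 2 := by
  have hcu : ce w k u = u := by
    funext σ
    unfold ce
    rw [hu σ]
    have hpos : w σ + w (flip k σ) ≠ 0 := (add_pos (hw _) (hw _)).ne'
    field_simp
  have h1 : ip w f u = ip w (ce w k f) u := by
    have := ip_ce hw k u f
    rwa [hcu] at this
  have h2 : ip w f (ce w k f) = ip w (ce w k f) (ce w k f) := ip_ce hw k f f
  have h3 : ∑ σ, w σ * (f σ - u σ) ^ 2 = ip w f f - 2 * ip w f u + ip w u u := by
    unfold ip
    rw [Finset.mul_sum, ← Finset.sum_sub_distrib, ← Finset.sum_add_distrib]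
    exact Finset.sum_congr rfl fun σ _ => by ring
  have h4 : 0 ≤ ∑ σ, w σ * (ce w k f σ - u σ) ^ 2 :=
    Finset.sum_nonneg fun σ _ => mul_nonneg (hw σ).le (sq_nonneg _)
  have h5 : ∑ σ, w σ * (ce w k f σ - u σ) ^ 2 =
      ip w (ce w k f) (ce w k f) - 2 * ip w (ce w k f) u + ip w u u := by
    unfold ip
    rw [Finset.mul_sum, ← Finset.sum_sub_distrib, ← Finset.sum_add_distrib]
    exact Finset.sum_congr rfl fun σ _ => by ring
  rw [h3, h1, h2]
  linarith

/-- The defect function `∑_k E_k f (f - E_k f)`. -/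
noncomputable def defect (w f : (V → Bool) → ℝ) (σ : V → Bool) : ℝ :=
  ∑ k, ce w k f σ * (f σ - ce w k f σ)

/-- If `f` is an eigenfunction for the weight `w`, its Dirichlet form for another weight `w'`
is controlled by the defect. -/
theorem dir_le_of_eigen (hw' : ∀ σ, 0 < w' σ) {f : (V → Bool) → ℝ} {ρ : ℝ}
    (hf : ceSum w f = fun σ => ρ * f σ) :
    dir w' f ≤ 2 * (((Fintype.card V : ℝ) - ρ) * ip w' f f - ∑ σ, w' σ * defect w f σ) := by
  rw [dir_eq hw']
  have h1 : ip w' f (ceSum w' f) = ∑ k, ip w' f (ce w' k f) := ip_sum_right f _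
  have h2 : (Fintype.card V : ℝ) * ip w' f f = ∑ _v : V, ip w' f f := by
    rw [Finset.sum_const, Finset.card_univ, nsmul_eq_mul]
  have h3 : (Fintype.card V : ℝ) * ip w' f f - ip w' f (ceSum w' f) ≤
      ∑ k, ∑ σ, w' σ * (f σ - ce w k f σ) ^ 2 := by
    rw [h1, h2, ← Finset.sum_sub_distrib]
    exact Finset.sum_le_sum fun k _ => ip_sub_ce_le hw' k f (ce w k f) (ce_flip k f)
  have h4 : ∑ k, ∑ σ, w' σ * (f σ - ce w k f σ) ^ 2 =
      ((Fintype.card V : ℝ) - ρ) * ip w' f f - ∑ σ, w' σ * defect w f σ := by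
    rw [Finset.sum_comm]
    unfold ip
    rw [Finset.mul_sum, ← Finset.sum_sub_distrib]
    refine Finset.sum_congr rfl fun σ _ => ?_
    rw [← Finset.mul_sum]
    have h5 : ∑ k, ce w k f σ = ρ * f σ := congrFun hf σ
    have h6 : ∑ k, (f σ - ce w k f σ) ^ 2 =
        ((Fintype.card V : ℝ) - ρ) * (f σ * f σ) - defect w f σ := by
      have e1 : ∀ k, (f σ - ce w k f σ) ^ 2 =
          f σ * f σ - f σ * ce w k f σ - ce w k f σ * (f σ - ce w k f σ) := fun k => by ring
      have e2 : ∑ k, f σ * ce w k f σ = f σ * (ρ * f σ) := by rw [← Finset.mul_sum, h5]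
      have e3 : ∑ _k : V, f σ * f σ = (Fintype.card V : ℝ) * (f σ * f σ) := by
        rw [Finset.sum_const, Finset.card_univ, nsmul_eq_mul]
      unfold defect
      rw [Finset.sum_congr rfl fun k _ => e1 k, Finset.sum_sub_distrib, Finset.sum_sub_distrib,
        e2, e3]
      ring
    rw [h6]
    ring
  rw [h4] at h3
  linarith

/-- The local sign computation. -/
theorem local_nonneg {a b x y p q r s : ℝ} (hp : 0 < p) (hq : 0 < q)
    (hxy : b ≤ a → y ≤ x) (hxy' : a ≤ b → x ≤ y)
    (hs1 : 0 ≤ a + b → 0 ≤ x + y) (hs2 : a + b ≤ 0 → x + y ≤ 0)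
    (hpq : |b| ≤ |a| → q ≤ p) (hpq' : |a| ≤ |b| → p ≤ q)
    (hrs : |b| ≤ |a| → s * p ≤ r * q) (hrs' : |a| ≤ |b| → r * q ≤ s * p) :
    0 ≤ (p * x + q * y) / (p + q) * (r * (x - (p * x + q * y) / (p + q)) +
      s * (y - (p * x + q * y) / (p + q))) := by
  have hpq0 : 0 < p + q := add_pos hp hq
  have key : (p * x + q * y) / (p + q) * (r * (x - (p * x + q * y) / (p + q)) +
      s * (y - (p * x + q * y) / (p + q))) =
      (p * x + q * y) * (x - y) * (r * q - s * p) / (p + q) ^ 2 := by
    field_simp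
    ring
  rw [key]
  apply div_nonneg _ (sq_nonneg _)
  have hP : p * x + q * y = ((p + q) * (x + y) + (p - q) * (x - y)) / 2 := by ring
  rcases le_total a b with hab | hab
  · have e1 := hxy' hab
    rcases le_total 0 (a + b) with h0 | h0
    · have h1 : |a| ≤ |b| := by
        rw [abs_le]
        have : |b| = b := abs_of_nonneg (by linarith)
        rw [this]; constructor <;> linarith
      have e2 := hpq' h1
      have e3 := hrs' h1
      have e4 := hs1 h0
      have hP0 : 0 ≤ p * x + q * y := by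
        rw [hP]
        have f1 : 0 ≤ (p + q) * (x + y) := mul_nonneg hpq0.le e4
        have f2 : 0 ≤ (p - q) * (x - y) := mul_nonneg_of_nonpos_of_nonpos (by linarith) (by linarith)
        linarith
      have f3 : 0 ≤ (x - y) * (r * q - s * p) :=
        mul_nonneg_of_nonpos_of_nonpos (by linarith) (by linarith)
      calc 0 ≤ (p * x + q * y) * ((x - y) * (r * q - s * p)) := mul_nonneg hP0 f3
        _ = _ := by ring
    · have h1 : |b| ≤ |a| := by
        rw [abs_le]
        have : |a| = -a := abs_of_nonpos (by linarith)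
        rw [this]; constructor <;> linarith
      have e2 := hpq h1
      have e3 := hrs h1
      have e4 := hs2 h0
      have hP0 : p * x + q * y ≤ 0 := by
        rw [hP]
        have f1 : (p + q) * (x + y) ≤ 0 := mul_nonpos_of_nonneg_of_nonpos hpq0.le e4
        have f2 : (p - q) * (x - y) ≤ 0 :=
          mul_nonpos_of_nonneg_of_nonpos (by linarith) (by linarith)
        linarith
      have f3 : (x - y) * (r * q - s * p) ≤ 0 :=
        mul_nonpos_of_nonpos_of_nonneg (by linarith) (by linarith)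
      calc 0 ≤ (p * x + q * y) * ((x - y) * (r * q - s * p)) :=
            mul_nonneg_of_nonpos_of_nonpos hP0 f3
        _ = _ := by ring
  · have e1 := hxy hab
    rcases le_total 0 (a + b) with h0 | h0
    · have h1 : |b| ≤ |a| := by
        rw [abs_le]
        have : |a| = a := abs_of_nonneg (by linarith)
        rw [this]; constructor <;> linarith
      have e2 := hpq h1
      have e3 := hrs h1
      have e4 := hs1 h0
      have hP0 : 0 ≤ p * x + q * y := by
        rw [hP]
        have f1 : 0 ≤ (p + q) * (x + y) := mul_nonneg hpq0.le e4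
        have f2 : 0 ≤ (p - q) * (x - y) := mul_nonneg (by linarith) (by linarith)
        linarith
      have f3 : 0 ≤ (x - y) * (r * q - s * p) := mul_nonneg (by linarith) (by linarith)
      calc 0 ≤ (p * x + q * y) * ((x - y) * (r * q - s * p)) := mul_nonneg hP0 f3
        _ = _ := by ring
    · have h1 : |a| ≤ |b| := by
        rw [abs_le]
        have : |b| = -b := abs_of_nonpos (by linarith)
        rw [this]; constructor <;> linarith
      have e2 := hpq' h1
      have e3 := hrs' h1
      have e4 := hs2 h0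
      have hP0 : p * x + q * y ≤ 0 := by
        rw [hP]
        have f1 : (p + q) * (x + y) ≤ 0 := mul_nonpos_of_nonneg_of_nonpos hpq0.le e4
        have f2 : (p - q) * (x - y) ≤ 0 :=
          mul_nonpos_of_nonpos_of_nonneg (by linarith) (by linarith)
        linarith
      have f3 : (x - y) * (r * q - s * p) ≤ 0 :=
        mul_nonpos_of_nonneg_of_nonpos (by linarith) (by linarith)
      calc 0 ≤ (p * x + q * y) * ((x - y) * (r * q - s * p)) :=
            mul_nonneg_of_nonpos_of_nonpos hP0 f3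
        _ = _ := by ring

omit [DecidableEq V] in
theorem mag_neg (σ : V → Bool) : mag (neg σ) = -mag σ := mag_odd σ

/-- The weighted sum of the defect of an odd nondecreasing function of the magnetisation is
nonnegative as soon as the ratio of the weights is nondecreasing in the absolute
magnetisation. -/
theorem sum_defect_nonneg (hw : ∀ σ, 0 < w σ)
    (hwa : ∀ σ τ, |mag σ| ≤ |mag τ| → w σ ≤ w τ)
    (hr : ∀ σ τ, |mag σ| ≤ |mag τ| → wb σ * w τ ≤ wb τ * w σ)
    {f : (V → Bool) → ℝ} (hodd : Odd' f) (hmm : MagMono f) :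
    0 ≤ ∑ σ, wb σ * defect w f σ := by
  have h1 : ∑ σ, wb σ * defect w f σ =
      ∑ k, ∑ σ, wb σ * (ce w k f σ * (f σ - ce w k f σ)) := by
    rw [Finset.sum_comm]
    refine Finset.sum_congr rfl fun σ _ => ?_
    unfold defect
    rw [Finset.mul_sum]
  rw [h1]
  refine Finset.sum_nonneg fun k _ => ?_
  have h2 : ∑ σ, wb σ * (ce w k f σ * (f σ - ce w k f σ)) =
      (∑ σ, (wb σ * (ce w k f σ * (f σ - ce w k f σ)) +
        wb (flip k σ) * (ce w k f σ * (f (flip k σ) - ce w k f σ)))) / 2 := by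
    rw [Finset.sum_add_distrib]
    have h3 := sum_flip k (fun σ => wb σ * (ce w k f σ * (f σ - ce w k f σ)))
    have h4 : ∑ σ, wb (flip k σ) * (ce w k f σ * (f (flip k σ) - ce w k f σ)) =
        ∑ σ, wb (flip k σ) * (ce w k f (flip k σ) * (f (flip k σ) - ce w k f (flip k σ))) :=
      Finset.sum_congr rfl fun σ _ => by rw [ce_flip]
    rw [h4, h3]
    ring
  rw [h2]
  apply div_nonneg _ (by norm_num)
  refine Finset.sum_nonneg fun σ _ => ?_
  have h5 := local_nonneg (a := mag σ) (b := mag (flip k σ)) (x := f σ) (y := f (flip k σ))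
    (p := w σ) (q := w (flip k σ)) (r := wb σ) (s := wb (flip k σ)) (hw _) (hw _)
    (fun h => hmm _ _ h) (fun h => hmm _ _ h)
    (fun h => by
      have h6 : mag (neg (flip k σ)) ≤ mag σ := by rw [mag_neg]; linarith
      have h7 := hmm _ _ h6
      rw [hodd] at h7
      linarith)
    (fun h => by
      have h6 : mag σ ≤ mag (neg (flip k σ)) := by rw [mag_neg]; linarith
      have h7 := hmm _ _ h6
      rw [hodd] at h7
      linarith)
    (fun h => hwa _ _ h) (fun h => hwa _ _ h) (fun h => hr _ _ h) (fun h => hr _ _ h)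
  have h8 : ce w k f σ = (w σ * f σ + w (flip k σ) * f (flip k σ)) / (w σ + w (flip k σ)) := rfl
  rw [h8]
  linarith

omit [DecidableEq V] in
theorem comp_of_abs (hwa : ∀ σ τ, |mag σ| ≤ |mag τ| → w σ ≤ w τ) (π : Equiv.Perm V)
    (σ : V → Bool) : w (σ ∘ π) = w σ :=
  le_antisymm (hwa _ _ (by rw [mag_comp])) (hwa _ _ (by rw [mag_comp]))

omit [DecidableEq V] in
theorem neg_of_abs (hwa : ∀ σ τ, |mag σ| ≤ |mag τ| → w σ ≤ w τ)
    (σ : V → Bool) : w (neg σ) = w σ :=
  le_antisymm (hwa _ _ (by rw [mag_neg, abs_neg])) (hwa _ _ (by rw [mag_neg, abs_neg]))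

theorem defect_comp (hws : ∀ (π : Equiv.Perm V) (σ : V → Bool), w (σ ∘ π) = w σ)
    {f : (V → Bool) → ℝ} (hfs : ∀ (π : Equiv.Perm V) (σ : V → Bool), f (σ ∘ π) = f σ)
    (π : Equiv.Perm V) (σ : V → Bool) : defect w f (σ ∘ π) = defect w f σ := by
  unfold defect
  rw [← Equiv.sum_comp π (fun k => ce w k f σ * (f σ - ce w k f σ))]
  exact Finset.sum_congr rfl fun v _ => by rw [ce_comp hws hfs, hfs]

/-- The comparison theorem. -/
theorem gap_compare [Nonempty V] (hw : ∀ σ, 0 < w σ)
    (hfkg : ∀ σ τ, w σ * w τ ≤ w (σ ⊓ τ) * w (σ ⊔ τ))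
    (hwa : ∀ σ τ, |mag σ| ≤ |mag τ| → w σ ≤ w τ)
    (hw' : ∀ σ, 0 < w' σ) (hsym' : ∀ σ, w' (neg σ) = w' σ)
    (hr : ∀ σ τ, |mag σ| ≤ |mag τ| → wb σ * w τ ≤ wb τ * w σ)
    (hav : ∀ H : (V → Bool) → ℝ, (∀ (π : Equiv.Perm V) (σ : V → Bool), H (σ ∘ π) = H σ) →
      ∑ σ, w' σ * H σ = ∑ σ, wb σ * H σ) :
    gap (normalize w') ≤ gap (normalize w) := by
  have hsym := neg_of_abs hwa
  have hws := comp_of_abs hwa
  have hn : (0 : ℝ) < Fintype.card V := by exact_mod_cast Fintype.card_pos
  obtain ⟨f, ρ, hρ0, hodd, hmm, hone, heig, hρ⟩ := exists_eigenfunction hw hsym hfkg hws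
  have hlow : 2 * ((Fintype.card V : ℝ) - ρ) ≤ 2 * (Fintype.card V : ℝ) * gap (normalize w) := by
    apply le_gap hw
    intro g hg
    apply poincare_of_odd hw hsym hfkg _ hg
    intro k hk
    have h1 := odd_bound hw hsym hfkg hws hρ0 hρ hk
    rw [dir_eq hw]
    linarith
  have hup := poincare_of_gap hw' (g := f) (ip_odd_even hsym' hodd (fun _ => rfl))
  have h1 := dir_le_of_eigen hw' heig
  have h2 : 0 ≤ ∑ σ, w' σ * defect w f σ := by
    rw [hav _ (defect_comp hws fun π σ => hmm.comp π σ)]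
    exact sum_defect_nonneg hw hwa hr hodd hmm
  have hpos : 0 < ip w' f f := by
    have h3 : ∃ σ, f σ ≠ 0 := by
      by_contra hcon
      push Not at hcon
      have : ip w f f = 0 := by
        unfold ip
        exact Finset.sum_eq_zero fun σ _ => by rw [hcon σ]; ring
      rw [hone] at this
      exact one_ne_zero this
    obtain ⟨σ, hσ⟩ := h3
    exact ip_self_pos hw' hσ
  have h3 : (2 * (Fintype.card V : ℝ) * gap (normalize w')) * ip w' f f ≤
      (2 * ((Fintype.card V : ℝ) - ρ)) * ip w' f f := by linarith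
  have h4 := le_of_mul_le_mul_right h3 hpos
  have h5 : 2 * (Fintype.card V : ℝ) * gap (normalize w') ≤
      2 * (Fintype.card V : ℝ) * gap (normalize w) := h4.trans hlow
  exact le_of_mul_le_mul_left h5 (by positivity)

end Pool.Agent.Lib.MP_f82811_pr
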