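import Pool.Agent.Lib.MP_f82811_pr.Bridge

/-!
# Weights depending on the magnetisation only

For a weight that is a nondecreasing function of the absolute magnetisation (and satisfies the
FKG lattice condition) there is a slowest eigenfunction which is an odd nondecreasing function
of the magnetisation; this allows to compare the gaps of two such weights.
-/

set_option autoImplicit false

namespace Pool.Agent.Lib.MP_f82811_pr

open Finset

variable {V : Type*} [Fintype V] [DecidableEq V] {w w' : (V → Bool) → ℝ}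

/-- Nondecreasing functions of the magnetisation. -/
def MagMono (f : (V → Bool) → ℝ) : Prop := ∀ σ τ, mag σ ≤ mag τ → f σ ≤ f τ

theorem mag_mono {σ τ : V → Bool} (h : σ ≤ τ) : mag σ ≤ mag τ := by
  by_cases hne : σ = τ
  · rw [hne]
  · have := mag_lt h hne
    linarith

omit [DecidableEq V] in
theorem mag_comp (π : Equiv.Perm V) (σ : V → Bool) : mag (σ ∘ π) = mag σ := by
  unfold mag
  exact Equiv.sum_comp π (fun v => if σ v then (1 : ℝ) else -1)

omit [DecidableEq V] in
theorem mag_eq_card (σ : V → Bool) :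
    mag σ = 2 * ((univ.filter fun v => σ v = true).card : ℝ) - Fintype.card V := by
  unfold mag
  rw [Finset.card_filter]
  push_cast
  rw [Finset.mul_sum]
  have : (Fintype.card V : ℝ) = ∑ _v : V, (1 : ℝ) := by simp
  rw [this, ← Finset.sum_sub_distrib]
  refine Finset.sum_congr rfl fun v _ => ?_
  cases σ v <;> norm_num

theorem exists_perm_le {σ τ : V → Bool} (h : mag σ ≤ mag τ) :
    ∃ π : Equiv.Perm V, σ ∘ π ≤ τ := by
  rw [mag_eq_card, mag_eq_card] at h
  have hc : (univ.filter fun v => σ v = true).card ≤ (univ.filter fun v => τ v = true).card := by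
    have : ((univ.filter fun v => σ v = true).card : ℝ) ≤
        ((univ.filter fun v => τ v = true).card : ℝ) := by linarith
    exact_mod_cast this
  obtain ⟨T', hT', hcard⟩ := Finset.exists_subset_card_eq hc
  have e : {v // v ∈ T'} ≃ {v // v ∈ univ.filter fun v => σ v = true} :=
    Finset.equivOfCardEq hcard
  refine ⟨e.extendSubtype, fun v => ?_⟩
  by_cases hv : v ∈ T'
  · have h1 : τ v = true := by
      have := hT' hv
      simpa using this
    rw [h1]
    exact Bool.le_true _
  · have h2 := e.extendSubtype_not_mem v hv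
    have h3 : σ (e.extendSubtype v) = false := by
      simpa using h2
    rw [Function.comp_apply, h3]
    exact Bool.false_le _

theorem MagMono.monotone {f : (V → Bool) → ℝ} (hf : MagMono f) : Monotone f :=
  fun _ _ h => hf _ _ (mag_mono h)

omit [DecidableEq V] in
theorem MagMono.comp {f : (V → Bool) → ℝ} (hf : MagMono f) (π : Equiv.Perm V)
    (σ : V → Bool) : f (σ ∘ π) = f σ :=
  le_antisymm (hf _ _ (mag_comp π σ).le) (hf _ _ (mag_comp π σ).ge)

theorem magMono_of {f : (V → Bool) → ℝ} (hf : Monotone f)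
    (hs : ∀ (π : Equiv.Perm V) (σ : V → Bool), f (σ ∘ π) = f σ) : MagMono f := by
  intro σ τ h
  obtain ⟨π, hπ⟩ := exists_perm_le h
  rw [← hs π σ]
  exact hf hπ

omit [Fintype V] in
theorem flip_comp (π : Equiv.Perm V) (v : V) (σ : V → Bool) :
    flip v (σ ∘ π) = (flip (π v) σ) ∘ π := by
  funext i
  unfold flip
  by_cases h : i = v
  · subst h; simp
  · have h' : π i ≠ π v := fun hc => h (π.injective hc)
    simp [Function.update_of_ne h, Function.update_of_ne h']

omit [Fintype V] in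
theorem ce_comp (hws : ∀ (π : Equiv.Perm V) (σ : V → Bool), w (σ ∘ π) = w σ)
    {f : (V → Bool) → ℝ} (hfs : ∀ (π : Equiv.Perm V) (σ : V → Bool), f (σ ∘ π) = f σ)
    (π : Equiv.Perm V) (v : V) (σ : V → Bool) :
    ce w v f (σ ∘ π) = ce w (π v) f σ := by
  unfold ce
  rw [flip_comp, hws, hws, hfs, hfs]

theorem ceSum_comp (hws : ∀ (π : Equiv.Perm V) (σ : V → Bool), w (σ ∘ π) = w σ)
    {f : (V → Bool) → ℝ} (hfs : ∀ (π : Equiv.Perm V) (σ : V → Bool), f (σ ∘ π) = f σ)
    (π : Equiv.Perm V) (σ : V → Bool) :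
    ceSum w f (σ ∘ π) = ceSum w f σ := by
  unfold ceSum
  rw [← Equiv.sum_comp π (fun v => ce w v f σ)]
  exact Finset.sum_congr rfl fun v _ => ce_comp hws hfs π v σ

/-- The sum of the conditional expectations preserves the nondecreasing functions of the
magnetisation. -/
theorem ceSum_magMono (hw : ∀ σ, 0 < w σ)
    (hfkg : ∀ σ τ, w σ * w τ ≤ w (σ ⊓ τ) * w (σ ⊔ τ))
    (hws : ∀ (π : Equiv.Perm V) (σ : V → Bool), w (σ ∘ π) = w σ)
    {f : (V → Bool) → ℝ} (hf : MagMono f) : MagMono (ceSum w f) :=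
  magMono_of (ceSum_mono hw hfkg hf.monotone) (ceSum_comp hws fun π σ => hf.comp π σ)

omit [DecidableEq V] in
theorem mag_magMono : MagMono (mag (V := V)) := fun _ _ h => h

/-! ### The slowest eigenfunction -/

theorem continuous_ip_self : Continuous fun f : (V → Bool) → ℝ => ip w f f := by
  unfold ip
  fun_prop

theorem continuous_ip_ceSum : Continuous fun f : (V → Bool) → ℝ => ip w f (ceSum w f) := by
  unfold ip ceSum ce
  fun_prop

theorem exists_maximizer [Nonempty V] (hw : ∀ σ, 0 < w σ) :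
    ∃ f : (V → Bool) → ℝ, Odd' f ∧ MagMono f ∧ ip w f f = 1 ∧
      ∀ g : (V → Bool) → ℝ, Odd' g → MagMono g →
        ip w g (ceSum w g) ≤ ip w f (ceSum w f) * ip w g g := by
  -- the compact set
  obtain ⟨S, hS⟩ : ∃ S : Set ((V → Bool) → ℝ),
      S = {f | Odd' f ∧ MagMono f ∧ ip w f f = 1} := ⟨_, rfl⟩
  have hclosed : IsClosed S := by
    rw [hS]
    have h1 : IsClosed {f : (V → Bool) → ℝ | Odd' f} := by
      unfold Odd'
      rw [Set.ofPred_forall]
      refine isClosed_iInter fun σ => ?_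
      exact isClosed_eq (continuous_apply _) (continuous_apply _).neg
    have h2 : IsClosed {f : (V → Bool) → ℝ | MagMono f} := by
      unfold MagMono
      simp only [Set.ofPred_forall]
      refine isClosed_iInter fun σ => isClosed_iInter fun τ => isClosed_iInter fun _ => ?_
      exact isClosed_le (continuous_apply _) (continuous_apply _)
    have h3 : IsClosed {f : (V → Bool) → ℝ | ip w f f = 1} :=
      isClosed_eq continuous_ip_self continuous_const
    exact h1.inter (h2.inter h3)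
  have hbdd : ∃ B : ℝ, ∀ f ∈ S, ∀ σ, |f σ| ≤ B := by
    refine ⟨∑ σ, (1 / w σ + 1), fun f hf σ => ?_⟩
    rw [hS] at hf
    have h1 : w σ * (f σ * f σ) ≤ 1 := by
      rw [← hf.2.2]
      exact Finset.single_le_sum (f := fun σ => w σ * (f σ * f σ))
        (fun σ _ => mul_nonneg (hw σ).le (mul_self_nonneg _)) (Finset.mem_univ σ)
    have h2 : f σ * f σ ≤ 1 / w σ := by
      rw [le_div_iff₀ (hw σ)]
      linarith
    have h3 : |f σ| ≤ 1 / w σ + 1 := by
      have h4 : 0 ≤ 1 / w σ := (one_div_pos.2 (hw σ)).le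
      apply abs_le_of_sq_le_sq
      · nlinarith
      · linarith
    refine h3.trans ?_
    exact Finset.single_le_sum (f := fun σ => 1 / w σ + 1)
      (fun σ _ => by have := one_div_pos.2 (hw σ); linarith) (Finset.mem_univ σ)
  obtain ⟨B, hB⟩ := hbdd
  have hcompact : IsCompact S := by
    apply IsCompact.of_isClosed_subset
      (isCompact_Icc (a := fun _ : V → Bool => -B) (b := fun _ : V → Bool => B)) hclosed
    intro f hf
    rw [Set.mem_Icc]
    exact ⟨fun σ => (abs_le.1 (hB f hf σ)).1, fun σ => (abs_le.1 (hB f hf σ)).2⟩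
  -- scaling
  have hscale : ∀ g : (V → Bool) → ℝ, Odd' g → MagMono g → ip w g g ≠ 0 →
      (fun σ => (1 / Real.sqrt (ip w g g)) * g σ) ∈ S := by
    intro g hg1 hg2 hg3
    have hpos : 0 < ip w g g := lt_of_le_of_ne (ip_self_nonneg hw g) (Ne.symm hg3)
    have hs : 0 < Real.sqrt (ip w g g) := Real.sqrt_pos.2 hpos
    rw [hS]
    refine ⟨?_, ?_, ?_⟩
    · intro σ
      simp only
      rw [hg1 σ]
      ring
    · intro σ τ h
      exact mul_le_mul_of_nonneg_left (hg2 σ τ h) (one_div_pos.2 hs).le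
    · rw [ip_smul_left, ip_smul_right]
      have h1 : Real.sqrt (ip w g g) * Real.sqrt (ip w g g) = ip w g g :=
        Real.mul_self_sqrt hpos.le
      field_simp
      nlinarith [h1]
  have hne : S.Nonempty := by
    refine ⟨_, hscale mag mag_odd mag_magMono ?_⟩
    have h1 : mag (V := V) (fun _ => true) ≠ 0 := by
      unfold mag
      simp
    exact (ip_self_pos hw h1).ne'
  obtain ⟨f, hfS, hmax⟩ := hcompact.exists_isMaxOn hne
    (continuous_ip_ceSum (w := w)).continuousOn
  have hfS' := hfS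
  rw [hS] at hfS'
  refine ⟨f, hfS'.1, hfS'.2.1, hfS'.2.2, fun g hg1 hg2 => ?_⟩
  by_cases hg3 : ip w g g = 0
  · have h0 : ∀ σ, g σ = 0 := by
      intro σ
      by_contra hcon
      exact (ip_self_pos hw hcon).ne' hg3
    have h1 : ip w g (ceSum w g) = 0 := by
      unfold ip
      exact Finset.sum_eq_zero fun σ _ => by rw [h0 σ]; ring
    rw [h1, hg3, mul_zero]
  · have hpos : 0 < ip w g g := lt_of_le_of_ne (ip_self_nonneg hw g) (Ne.symm hg3)
    have hs : 0 < Real.sqrt (ip w g g) := Real.sqrt_pos.2 hpos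
    have h1 := hmax (hscale g hg1 hg2 hg3)
    have h1' : ip w (fun σ => (1 / Real.sqrt (ip w g g)) * g σ)
        (ceSum w (fun σ => (1 / Real.sqrt (ip w g g)) * g σ)) ≤ ip w f (ceSum w f) := h1
    have h2 : ceSum w (fun σ => (1 / Real.sqrt (ip w g g)) * g σ) =
        fun σ => (1 / Real.sqrt (ip w g g)) * ceSum w g σ := by
      have := ceSum_lin (w := w) (1 / Real.sqrt (ip w g g)) 0 g g
      simpa using this
    rw [h2, ip_smul_left, ip_smul_right] at h1'
    have h3 : Real.sqrt (ip w g g) * Real.sqrt (ip w g g) = ip w g g :=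
      Real.mul_self_sqrt hpos.le
    have h4 : 1 / Real.sqrt (ip w g g) * (1 / Real.sqrt (ip w g g) * ip w g (ceSum w g)) =
        ip w g (ceSum w g) / (Real.sqrt (ip w g g) * Real.sqrt (ip w g g)) := by
      field_simp
    rw [h4, h3, div_le_iff₀ hpos] at h1'
    exact h1'

/-- The maximiser is an eigenfunction. -/
theorem exists_eigenfunction [Nonempty V] (hw : ∀ σ, 0 < w σ) (hsym : ∀ σ, w (neg σ) = w σ)
    (hfkg : ∀ σ τ, w σ * w τ ≤ w (σ ⊓ τ) * w (σ ⊔ τ))
    (hws : ∀ (π : Equiv.Perm V) (σ : V → Bool), w (σ ∘ π) = w σ) :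
    ∃ (f : (V → Bool) → ℝ) (ρ : ℝ), 0 ≤ ρ ∧ Odd' f ∧ MagMono f ∧ ip w f f = 1 ∧
      ceSum w f = (fun σ => ρ * f σ) ∧
      ∀ g : (V → Bool) → ℝ, Odd' g → MagMono g → ip w g (ceSum w g) ≤ ρ * ip w g g := by
  obtain ⟨f, hodd, hmm, hone, hmax⟩ := exists_maximizer (V := V) hw
  refine ⟨f, ip w f (ceSum w f), ip_ceSum_nonneg hw f, hodd, hmm, hone, ?_, hmax⟩
  set ρ := ip w f (ceSum w f) with hρ
  have hρ0 : 0 ≤ ρ := ip_ceSum_nonneg hw f
  set a2 := ip w (ceSum w f) (ceSum w f) with ha2
  have ha2' : ip w f (ceSum w (ceSum w f)) = a2 := by rw [ip_ceSum_symm hw]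
  have h1 := ip_ceSum_sq_le hw f (ceSum w f)
  rw [ha2'] at h1
  have h2 := hmax (ceSum w f) (ceSum_odd hsym hodd) (ceSum_magMono hw hfkg hws hmm)
  have ha20 : 0 ≤ a2 := ip_self_nonneg hw _
  have h3 : a2 ≤ ρ ^ 2 := by
    have h4 : ρ * ip w (ceSum w f) (ceSum w (ceSum w f)) ≤ ρ * (ρ * a2) :=
      mul_le_mul_of_nonneg_left h2 hρ0
    rcases ha20.lt_or_eq with h | h
    · have : a2 * a2 ≤ ρ ^ 2 * a2 := by nlinarith
      exact le_of_mul_le_mul_right this h
    · rw [← h]; positivity
  have h4 := ip_sq_le hw f (ceSum w f)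
  rw [hone, one_mul] at h4
  have h5 : a2 = ρ ^ 2 := le_antisymm h3 h4
  -- the difference vanishes
  have h6 : ip w (fun σ => ceSum w f σ + (-ρ) * f σ) (fun σ => ceSum w f σ + (-ρ) * f σ) = 0 := by
    rw [ip_add_left, ip_add_right, ip_add_right, ip_smul_left, ip_smul_left, ip_smul_right,
      ip_smul_right, ip_comm (ceSum w f) f, ← hρ, ← ha2, hone, h5]
    ring
  funext σ
  by_contra hcon
  have h7 : ceSum w f σ + (-ρ) * f σ ≠ 0 := by
    intro h
    apply hcon
    linarith
  exact (ip_self_pos hw (g := fun σ => ceSum w f σ + (-ρ) * f σ) h7).ne' h6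

/-- The bound for the odd nondecreasing functions of the magnetisation passes to all odd
functions. -/
theorem odd_bound (hw : ∀ σ, 0 < w σ) (hsym : ∀ σ, w (neg σ) = w σ)
    (hfkg : ∀ σ τ, w σ * w τ ≤ w (σ ⊓ τ) * w (σ ⊔ τ))
    (hws : ∀ (π : Equiv.Perm V) (σ : V → Bool), w (σ ∘ π) = w σ) {ρ : ℝ} (hρ0 : 0 ≤ ρ)
    (hρ : ∀ g : (V → Bool) → ℝ, Odd' g → MagMono g → ip w g (ceSum w g) ≤ ρ * ip w g g)
    {g : (V → Bool) → ℝ} (hg : Odd' g) : ip w g (ceSum w g) ≤ ρ * ip w g g := by
  -- iterates of the magnetisation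
  have hmm : ∀ k, MagMono (iter w k (mag (V := V))) := by
    intro k
    induction k with
    | zero => exact mag_magMono
    | succ k ih => rw [iter_succ]; exact ceSum_magMono hw hfkg hws ih
  have hstep : ∀ h : (V → Bool) → ℝ, Odd' h → MagMono h →
      ip w (ceSum w h) (ceSum w h) ≤ ρ ^ 2 * ip w h h := by
    intro h h1 h2
    set N := ip w (ceSum w h) (ceSum w h) with hN
    have e1 : ip w h (ceSum w (ceSum w h)) = N := by rw [ip_ceSum_symm hw]
    have e2 := ip_ceSum_sq_le hw h (ceSum w h)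
    rw [e1] at e2
    have e3 := hρ h h1 h2
    have e4 := hρ (ceSum w h) (ceSum_odd hsym h1) (ceSum_magMono hw hfkg hws h2)
    have e5 : 0 ≤ ip w h h := ip_self_nonneg hw h
    have e6 : 0 ≤ N := ip_self_nonneg hw _
    have e7 : 0 ≤ ip w h (ceSum w h) := ip_ceSum_nonneg hw h
    have e8 : ip w h (ceSum w h) * ip w (ceSum w h) (ceSum w (ceSum w h)) ≤
        (ρ * ip w h h) * (ρ * N) :=
      mul_le_mul e3 e4 (ip_ceSum_nonneg hw _) (mul_nonneg hρ0 e5)
    have e9 : N * N ≤ (ρ ^ 2 * ip w h h) * N := by nlinarith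
    rcases e6.lt_or_eq with h | h
    · exact le_of_mul_le_mul_right e9 h
    · rw [← h]; positivity
  have hmagk : ∀ k, ip w (iter w k (mag (V := V))) (iter w k mag) ≤
      ip w (mag (V := V)) mag * (ρ ^ 2) ^ k := by
    intro k
    induction k with
    | zero => simp [iter_zero]
    | succ k ih =>
      rw [iter_succ]
      have h1 := hstep _ (iter_odd hsym mag_odd k) (hmm k)
      calc _ ≤ ρ ^ 2 * ip w (iter w k (mag (V := V))) (iter w k mag) := h1
        _ ≤ ρ ^ 2 * (ip w (mag (V := V)) mag * (ρ ^ 2) ^ k) :=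
            mul_le_mul_of_nonneg_left ih (sq_nonneg ρ)
        _ = _ := by ring
  obtain ⟨K, hK1, hK2⟩ := exists_monotone g
  have hm0 : ip w (mag (V := V)) (fun _ => 1) = 0 := ip_odd_even hsym mag_odd (fun _ => rfl)
  have hg0 : ip w g (fun _ => 1) = 0 := ip_odd_even hsym hg (fun _ => rfl)
  have hf0 : ip w (fun σ => K * mag σ + 1 * g σ) (fun _ => 1) = 0 := by
    rw [ip_add_left, ip_smul_left, ip_smul_left, hm0, hg0]; ring
  have hdom : ∀ k, ip w (iter w k g) (iter w k g) ≤
      (K ^ 2 * ip w (mag (V := V)) mag) * (ρ ^ 2) ^ k := by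
    intro k
    have h1 := fkg_ip hw hfkg (iter_mono hw hfkg hK1 k) (iter_mono hw hfkg hK2 k)
      (iter_mean hw k _ hf0)
    rw [iter_lin, iter_lin] at h1
    have h2 : ip w (fun σ => K * iter w k mag σ + 1 * iter w k g σ)
        (fun σ => K * iter w k mag σ + (-1) * iter w k g σ) =
        K ^ 2 * ip w (iter w k mag) (iter w k mag) - ip w (iter w k g) (iter w k g) := by
      rw [ip_add_left, ip_add_right, ip_add_right, ip_smul_left, ip_smul_left, ip_smul_left,
        ip_smul_left, ip_smul_right, ip_smul_right, ip_smul_right, ip_smul_right,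
        ip_comm (iter w k g) (iter w k mag)]
      ring
    rw [h2] at h1
    have h4 : K ^ 2 * ip w (iter w k mag) (iter w k mag) ≤
        K ^ 2 * (ip w (mag (V := V)) mag * (ρ ^ 2) ^ k) :=
      mul_le_mul_of_nonneg_left (hmagk k) (sq_nonneg K)
    linarith
  have hlc : ∀ k, ip w (iter w (k + 1) g) (iter w (k + 1) g) ^ 2 ≤
      ip w (iter w k g) (iter w k g) * ip w (iter w (k + 2) g) (iter w (k + 2) g) := by
    intro k
    have h1 : ip w (iter w (k + 1) g) (iter w (k + 1) g) =
        ip w (iter w k g) (iter w (k + 2) g) := by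
      rw [iter_succ (k + 1) g, ip_ceSum_symm hw, iter_succ k g]
    rw [h1]
    exact ip_sq_le hw _ _
  have h1 := log_convex_bound (fun k => ip w (iter w k g) (iter w k g))
    (fun k => ip_self_nonneg hw _) hlc _ (ρ ^ 2) (sq_nonneg ρ) hdom
  simp only [iter_zero] at h1
  have h1' : ip w (ceSum w g) (ceSum w g) ≤ ρ ^ 2 * ip w g g := h1
  have h2 := ip_sq_le hw g (ceSum w g)
  have h3 : 0 ≤ ip w g g := ip_self_nonneg hw g
  have h4 : ip w g (ceSum w g) ^ 2 ≤ (ρ * ip w g g) ^ 2 := by
    calc _ ≤ ip w g g * ip w (ceSum w g) (ceSum w g) := h2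
      _ ≤ ip w g g * (ρ ^ 2 * ip w g g) := mul_le_mul_of_nonneg_left h1' h3
      _ = _ := by ring
  exact le_of_abs_le (abs_le_of_sq_le_sq h4 (mul_nonneg hρ0 h3))

end Pool.Agent.Lib.MP_f82811_pr
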