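import Pool.Agent.Lib.MP_f82811_pr.Compare

/-!
# The Ising model on the complete graph
-/

set_option autoImplicit false

namespace Pool.Agent.Lib.MP_f82811_pr

open Finset

variable {V : Type*} [Fintype V] [DecidableEq V]

omit [DecidableEq V] in
theorem mag_eq_spin (σ : V → Bool) : mag σ = ∑ v, spin (σ v) := rfl

theorem spin_sq (b : Bool) : spin b * spin b = 1 := by cases b <;> norm_num [spin]

theorem sum_offDiag_spin (σ : V → Bool) :
    ∑ p ∈ (univ : Finset V).offDiag, spin (σ p.1) * spin (σ p.2) =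
      (mag σ) ^ 2 - Fintype.card V := by
  have h1 : (mag σ) ^ 2 = ∑ p ∈ (univ : Finset V) ×ˢ (univ : Finset V),
      spin (σ p.1) * spin (σ p.2) := by
    rw [sq, mag_eq_spin, Finset.sum_mul_sum, Finset.sum_product]
  have h2 : ∑ p ∈ (univ : Finset V).diag, spin (σ p.1) * spin (σ p.2) = Fintype.card V := by
    rw [Finset.sum_diag]
    simp [spin_sq]
  have h3 := Finset.sum_union (Finset.disjoint_diag_offDiag (univ : Finset V))
    (f := fun p : V × V => spin (σ p.1) * spin (σ p.2))
  rw [Finset.diag_union_offDiag] at h3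
  rw [h1, h3, h2]
  ring

theorem sum_edge_top (F : Sym2 V → ℝ) :
    2 * ∑ e ∈ (⊤ : SimpleGraph V).edgeFinset, F e =
      ∑ p ∈ (univ : Finset V).offDiag, F s(p.1, p.2) := by
  have hmaps : ∀ p ∈ (univ : Finset V).offDiag,
      s(p.1, p.2) ∈ (⊤ : SimpleGraph V).edgeFinset := by
    intro p hp
    rw [Finset.mem_offDiag] at hp
    rw [SimpleGraph.mem_edgeFinset, SimpleGraph.mem_edgeSet]
    exact hp.2.2
  rw [← Finset.sum_fiberwise_of_maps_to hmaps, Finset.mul_sum]
  refine Finset.sum_congr rfl fun e he => ?_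
  rw [SimpleGraph.mem_edgeFinset] at he
  induction e with
  | h a b =>
    have hab : a ≠ b := he
    have hfib : ((univ : Finset V).offDiag.filter fun p => s(p.1, p.2) = s(a, b)) =
        {(a, b), (b, a)} := by
      ext ⟨c, d⟩
      simp only [Finset.mem_filter, Finset.mem_offDiag, Finset.mem_univ, true_and,
        Finset.mem_insert, Finset.mem_singleton, Prod.mk.injEq, Sym2.eq_iff]
      constructor
      · rintro ⟨_, h | h⟩
        · exact Or.inl h
        · exact Or.inr h
      · rintro (⟨rfl, rfl⟩ | ⟨rfl, rfl⟩)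
        · exact ⟨hab, Or.inl ⟨rfl, rfl⟩⟩
        · exact ⟨hab.symm, Or.inr ⟨rfl, rfl⟩⟩
    rw [hfib, Finset.sum_pair]
    · rw [Sym2.eq_swap (a := b) (b := a)]
      ring
    · intro h
      exact hab (Prod.mk.inj h).1

theorem weight_top (β : ℝ) (σ : V → Bool) :
    weight (⊤ : SimpleGraph V) (fun _ => β) σ =
      Real.exp (β * (((mag σ) ^ 2 - Fintype.card V) / 2)) := by
  unfold weight
  congr 1
  rw [← Finset.mul_sum]
  congr 1
  have h1 := sum_edge_top (V := V) (fun e => bond σ e)
  have h2 : ∑ p ∈ (univ : Finset V).offDiag, bond σ s(p.1, p.2) =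
      (mag σ) ^ 2 - Fintype.card V := sum_offDiag_spin σ
  linarith

theorem weight_top_update (β x : ℝ) {i j : V} (hij : i ≠ j) (σ : V → Bool) :
    weight (⊤ : SimpleGraph V) (Function.update (fun _ => β) s(i, j) x) σ =
      weight (⊤ : SimpleGraph V) (fun _ => β) σ *
        (Real.cosh (x - β) + Real.sinh (x - β) * bond σ s(i, j)) := by
  have he : s(i, j) ∈ (⊤ : SimpleGraph V).edgeSet := hij
  have h1 := weight_update (⊤ : SimpleGraph V) (fun _ => β) s(i, j) he x σ
  have h2 := weight_update (⊤ : SimpleGraph V) (fun _ => β) s(i, j) he β σ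
  have h3 : Function.update (fun _ : Sym2 V => β) s(i, j) β = fun _ => β :=
    Function.update_eq_self _ _
  rw [h3] at h2
  rw [h1, h2, mul_assoc]
  congr 1
  have h4 : Real.exp (x * bond σ s(i, j)) =
      Real.exp (β * bond σ s(i, j)) * Real.exp ((x - β) * bond σ s(i, j)) := by
    rw [← Real.exp_add]; congr 1; ring
  rw [h4]
  congr 1
  rcases bond_sq σ s(i, j) with h | h
  · rw [h, mul_one, mul_one, ← Real.cosh_add_sinh]
  · rw [h, mul_neg_one, mul_neg_one, ← Real.cosh_sub_sinh]
    ring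

omit [Fintype V] in
theorem exists_perm_pair {i j i' j' : V} (h : i ≠ j) (h' : i' ≠ j') :
    ∃ π : Equiv.Perm V, π i = i' ∧ π j = j' := by
  refine ⟨Equiv.swap (Equiv.swap i i' j) j' * Equiv.swap i i', ?_, ?_⟩
  · rw [Equiv.Perm.mul_apply, Equiv.swap_apply_left]
    apply Equiv.swap_apply_of_ne_of_ne
    · intro hc
      have h1 : Equiv.swap i i' i = Equiv.swap i i' j := by
        rw [Equiv.swap_apply_left]; exact hc
      exact h ((Equiv.swap i i').injective h1)
    · exact h'
  · rw [Equiv.Perm.mul_apply, Equiv.swap_apply_left]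

theorem sum_comp_perm (π : Equiv.Perm V) (F : (V → Bool) → ℝ) :
    ∑ σ, F (σ ∘ π) = ∑ σ, F σ := by
  apply Function.Bijective.sum_comp (g := F) (e := fun σ : V → Bool => σ ∘ π)
  rw [Function.bijective_iff_has_inverse]
  refine ⟨fun σ => σ ∘ π.symm, fun σ => ?_, fun σ => ?_⟩
  · funext v; simp
  · funext v; simp

/-- By symmetry a bond may be replaced by the average of all bonds. -/
theorem sum_bond_mul {G : (V → Bool) → ℝ}
    (hG : ∀ (π : Equiv.Perm V) (σ : V → Bool), G (σ ∘ π) = G σ) {i j : V} (hij : i ≠ j) :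
    ∑ σ, bond σ s(i, j) * G σ =
      ∑ σ, (((mag σ) ^ 2 - Fintype.card V) /
        ((Fintype.card V : ℝ) * ((Fintype.card V : ℝ) - 1))) * G σ := by
  have hpair : ∀ p ∈ (univ : Finset V).offDiag,
      ∑ σ, bond σ s(p.1, p.2) * G σ = ∑ σ, bond σ s(i, j) * G σ := by
    intro p hp
    rw [Finset.mem_offDiag] at hp
    obtain ⟨π, h1, h2⟩ := exists_perm_pair hij hp.2.2
    rw [← sum_comp_perm π (fun σ => bond σ s(i, j) * G σ)]
    refine Finset.sum_congr rfl fun σ _ => ?_
    rw [hG, bond_mk, bond_mk, Function.comp_apply, Function.comp_apply, h1, h2]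
  have hcard : ((univ : Finset V).offDiag.card : ℝ) =
      (Fintype.card V : ℝ) * ((Fintype.card V : ℝ) - 1) := by
    rw [Finset.offDiag_card, Finset.card_univ]
    have hle : Fintype.card V ≤ Fintype.card V * Fintype.card V := Nat.le_mul_self _
    rw [Nat.cast_sub hle, Nat.cast_mul]
    ring
  have hpos : 0 < (Fintype.card V : ℝ) * ((Fintype.card V : ℝ) - 1) := by
    have h1 : 1 < Fintype.card V := Fintype.one_lt_card_iff.2 ⟨i, j, hij⟩
    have h2 : (1 : ℝ) < Fintype.card V := by exact_mod_cast h1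
    exact mul_pos (by linarith) (by linarith)
  have h1 : ∑ p ∈ (univ : Finset V).offDiag, ∑ σ, bond σ s(p.1, p.2) * G σ =
      ((Fintype.card V : ℝ) * ((Fintype.card V : ℝ) - 1)) * ∑ σ, bond σ s(i, j) * G σ := by
    rw [Finset.sum_congr rfl hpair, Finset.sum_const, nsmul_eq_mul, hcard]
  have h2 : ∑ p ∈ (univ : Finset V).offDiag, ∑ σ, bond σ s(p.1, p.2) * G σ =
      ∑ σ, ((mag σ) ^ 2 - Fintype.card V) * G σ := by
    rw [Finset.sum_comm]
    refine Finset.sum_congr rfl fun σ _ => ?_
    rw [← Finset.sum_mul]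
    congr 1
    exact sum_offDiag_spin σ
  rw [h2] at h1
  have h3 : ∑ σ, (((mag σ) ^ 2 - Fintype.card V) /
      ((Fintype.card V : ℝ) * ((Fintype.card V : ℝ) - 1))) * G σ =
      (∑ σ, ((mag σ) ^ 2 - Fintype.card V) * G σ) /
        ((Fintype.card V : ℝ) * ((Fintype.card V : ℝ) - 1)) := by
    rw [Finset.sum_div]
    exact Finset.sum_congr rfl fun σ _ => by ring
  rw [h3, h1, mul_div_assoc, mul_comm, div_mul_cancel₀ _ hpos.ne']

omit [DecidableEq V] in
theorem sq_le_sq_of_abs {σ τ : V → Bool} (h : |mag σ| ≤ |mag τ|) :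
    (mag σ) ^ 2 ≤ (mag τ) ^ 2 := sq_le_sq.2 h

/-- Raising the common coupling of the complete graph and then the coupling of one edge does not
increase the gap. -/
theorem gap_complete [Nonempty V] {β β' x : ℝ} (hβ : 0 ≤ β) (hββ' : β ≤ β') (hx : β' ≤ x)
    {i j : V} (hij : i ≠ j) :
    gap (gibbs (⊤ : SimpleGraph V) (Function.update (fun _ => β') s(i, j) x)) ≤
      gap (gibbs (⊤ : SimpleGraph V) (fun _ => β)) := by
  rw [gibbs_eq, gibbs_eq]
  set N : ℝ := (Fintype.card V : ℝ) * ((Fintype.card V : ℝ) - 1) with hN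
  have hcard : (1 : ℝ) < Fintype.card V := by
    have h1 : 1 < Fintype.card V := Fintype.one_lt_card_iff.2 ⟨i, j, hij⟩
    exact_mod_cast h1
  have hcard2 : (2 : ℝ) ≤ Fintype.card V := by
    have h1 : 1 < Fintype.card V := Fintype.one_lt_card_iff.2 ⟨i, j, hij⟩
    exact_mod_cast h1
  have hNpos : 0 < N := by
    rw [hN]; exact mul_pos (by linarith) (by linarith)
  have hsinh : 0 ≤ Real.sinh (x - β') := Real.sinh_nonneg_iff.2 (by linarith)
  have hB : ∀ σ : V → Bool, 0 ≤ Real.cosh (x - β') +
      Real.sinh (x - β') * (((mag σ) ^ 2 - Fintype.card V) / N) := by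
    intro σ
    have h1 : -1 ≤ ((mag σ) ^ 2 - Fintype.card V) / N := by
      rw [le_div_iff₀ hNpos, hN]
      have := sq_nonneg (mag σ)
      nlinarith
    have h2 : Real.sinh (x - β') ≤ Real.cosh (x - β') := (Real.sinh_lt_cosh _).le
    nlinarith
  have hmono : ∀ σ τ : V → Bool, |mag σ| ≤ |mag τ| →
      Real.cosh (x - β') + Real.sinh (x - β') * (((mag σ) ^ 2 - Fintype.card V) / N) ≤
      Real.cosh (x - β') + Real.sinh (x - β') * (((mag τ) ^ 2 - Fintype.card V) / N) := by
    intro σ τ h
    have h1 : ((mag σ) ^ 2 - Fintype.card V) / N ≤ ((mag τ) ^ 2 - Fintype.card V) / N :=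
      div_le_div_of_nonneg_right (by linarith [sq_le_sq_of_abs h]) hNpos.le
    linarith [mul_le_mul_of_nonneg_left h1 hsinh]
  apply gap_compare (w := weight (⊤ : SimpleGraph V) (fun _ => β))
    (w' := weight (⊤ : SimpleGraph V) (Function.update (fun _ => β') s(i, j) x))
    (wb := fun σ => weight (⊤ : SimpleGraph V) (fun _ => β') σ *
      (Real.cosh (x - β') + Real.sinh (x - β') * (((mag σ) ^ 2 - Fintype.card V) / N)))
    (weight_pos _ _) (weight_fkg _ _ fun _ _ => hβ) _ (weight_pos _ _) (weight_neg _ _)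
  · -- ratio
    intro σ τ h
    have h0 := sq_le_sq_of_abs h
    have h1 : weight (⊤ : SimpleGraph V) (fun _ => β') σ *
        weight (⊤ : SimpleGraph V) (fun _ => β) τ ≤
        weight (⊤ : SimpleGraph V) (fun _ => β') τ *
        weight (⊤ : SimpleGraph V) (fun _ => β) σ := by
      rw [weight_top, weight_top, weight_top, weight_top, ← Real.exp_add, ← Real.exp_add]
      apply Real.exp_le_exp.2
      nlinarith
    have h2 := hmono σ τ h
    have h3 : 0 ≤ weight (⊤ : SimpleGraph V) (fun _ => β') τ *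
        weight (⊤ : SimpleGraph V) (fun _ => β) σ :=
      mul_nonneg (weight_pos _ _ _).le (weight_pos _ _ _).le
    have h4 := mul_le_mul h1 h2 (hB σ) h3
    calc _ = (weight (⊤ : SimpleGraph V) (fun _ => β') σ *
        weight (⊤ : SimpleGraph V) (fun _ => β) τ) *
          (Real.cosh (x - β') + Real.sinh (x - β') *
            (((mag σ) ^ 2 - Fintype.card V) / N)) := by ring
      _ ≤ _ := h4
      _ = _ := by ring
  · -- averaging
    intro H hH
    have hG : ∀ (π : Equiv.Perm V) (σ : V → Bool),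
        (fun σ => weight (⊤ : SimpleGraph V) (fun _ => β') σ * H σ) (σ ∘ π) =
        (fun σ => weight (⊤ : SimpleGraph V) (fun _ => β') σ * H σ) σ := by
      intro π σ
      simp only
      rw [hH, weight_top, weight_top, mag_comp]
    have h1 := sum_bond_mul
      (G := fun σ => weight (⊤ : SimpleGraph V) (fun _ => β') σ * H σ) hG hij
    have e1 : ∑ σ, weight (⊤ : SimpleGraph V) (Function.update (fun _ => β') s(i, j) x) σ * H σ =
        Real.cosh (x - β') * ∑ σ, weight (⊤ : SimpleGraph V) (fun _ => β') σ * H σ +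
        Real.sinh (x - β') * ∑ σ, bond σ s(i, j) *
          (weight (⊤ : SimpleGraph V) (fun _ => β') σ * H σ) := by
      rw [Finset.mul_sum, Finset.mul_sum, ← Finset.sum_add_distrib]
      refine Finset.sum_congr rfl fun σ _ => ?_
      rw [weight_top_update β' x hij]
      ring
    rw [e1, h1, Finset.mul_sum, Finset.mul_sum, ← Finset.sum_add_distrib]
    refine Finset.sum_congr rfl fun σ _ => ?_
    rw [hN]
    ring
  · -- the base weight is nondecreasing in the absolute magnetisation
    intro σ τ h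
    rw [weight_top, weight_top]
    apply Real.exp_le_exp.2
    have := sq_le_sq_of_abs h
    nlinarith

end Pool.Agent.Lib.MP_f82811_pr
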