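import Pool.Agent.Lib.MP_f82811_pr.CompleteGraph

/-!
# The relaxation time of the Curie-Weiss model is nondecreasing in the coupling

On the complete graph with all couplings equal to `β`, raising the common coupling to `β'` and
then raising the coupling of any one edge does not increase the spectral gap.
-/

set_option autoImplicit false

namespace Pool.Agent.Results.MP_f82811_pr.CompleteGraph

open Pool.Agent.Lib.MP_f82811_pr

theorem result : ∀ (V : Type) [Fintype V] [DecidableEq V] (β β' x : ℝ) (e : Sym2 V),
    0 ≤ β → β ≤ β' → β' ≤ x →
    gap (gibbs (⊤ : SimpleGraph V) (Function.update (fun _ => β') e x)) ≤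
      gap (gibbs (⊤ : SimpleGraph V) (fun _ => β)) := by
  intro V _ _ β β' x e hβ hββ' hx
  rcases isEmpty_or_nonempty V with hV | hV
  · rw [gap_of_isEmpty, gap_of_isEmpty]
  -- the uniform comparison
  have huni : gap (gibbs (⊤ : SimpleGraph V) (fun _ => β')) ≤
      gap (gibbs (⊤ : SimpleGraph V) (fun _ => β)) := by
    by_cases h : ∃ i j : V, i ≠ j
    · obtain ⟨i, j, hij⟩ := h
      have h1 := gap_complete (V := V) hβ hββ' le_rfl hij
      rwa [Function.update_eq_self] at h1
    · push Not at h
      have h2 : ∀ e ∈ (⊤ : SimpleGraph V).edgeSet, (fun _ : Sym2 V => β') e =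
          (fun _ : Sym2 V => β) e := by
        intro e he
        exfalso
        induction e with
        | h a b => exact he (h a b)
      rw [gibbs_eq, gibbs_eq, weight_congr (⊤ : SimpleGraph V) h2]
  by_cases he : e ∈ (⊤ : SimpleGraph V).edgeSet
  · induction e with
    | h a b => exact gap_complete hβ hββ' hx he
  · have h2 : ∀ e' ∈ (⊤ : SimpleGraph V).edgeSet,
        Function.update (fun _ : Sym2 V => β') e x e' = (fun _ : Sym2 V => β') e' := by
      intro e' he'
      rw [Function.update_of_ne]
      intro hc
      rw [hc] at he'
      exact he he'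
    rw [gibbs_eq, weight_congr (⊤ : SimpleGraph V) h2]
    exact huni

end Pool.Agent.Results.MP_f82811_pr.CompleteGraph
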