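import Pool.Agent.Lib.MP_f82811_pr.OddSector

/-!
# The ferromagnetic Ising model on a finite graph and the gap of its heat-bath dynamics
-/

set_option autoImplicit false

namespace Pool.Agent.Lib.MP_f82811_pr

open Finset

variable {V : Type*} [Fintype V] [DecidableEq V]

/-- The value `1` or `-1` of a spin. -/
def spin (b : Bool) : ℝ := if b then 1 else -1

/-- The product of the spins at the two ends of an edge. -/
def bond (σ : V → Bool) (e : Sym2 V) : ℝ :=
  Sym2.lift ⟨fun i j => spin (σ i) * spin (σ j), fun _ _ => mul_comm _ _⟩ e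

/-- The unnormalised Gibbs weight `exp (∑_{e ∈ E} J_e σ_e)` of the Ising model on `G` with
free boundary conditions and no external field. -/
noncomputable def weight (G : SimpleGraph V) [DecidableRel G.Adj] (J : Sym2 V → ℝ)
    (σ : V → Bool) : ℝ :=
  Real.exp (∑ e ∈ G.edgeFinset, J e * bond σ e)

/-- The Gibbs probability measure. -/
noncomputable def gibbs (G : SimpleGraph V) [DecidableRel G.Adj] (J : Sym2 V → ℝ)
    (σ : V → Bool) : ℝ :=
  weight G J σ / ∑ τ : V → Bool, weight G J τ

/-- The variance of `f` under the probability vector `π`. -/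
def variance (π f : (V → Bool) → ℝ) : ℝ := ∑ σ, π σ * (f σ - ∑ τ, π τ * f τ) ^ 2

/-- The Dirichlet form `⟨f, (1 - P) f⟩` of the heat-bath dynamics of `π`: at each step a uniform
vertex is chosen and its spin is resampled from the conditional law given the others. -/
noncomputable def dirichlet (π f : (V → Bool) → ℝ) : ℝ :=
  (1 / (2 * (Fintype.card V : ℝ))) *
    ∑ σ, ∑ v, π σ * π (flip v σ) / (π σ + π (flip v σ)) * (f σ - f (flip v σ)) ^ 2

/-- The spectral gap of the heat-bath dynamics of `π`, by its variational formula. -/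
noncomputable def gap (π : (V → Bool) → ℝ) : ℝ :=
  sInf {r : ℝ | ∃ f : (V → Bool) → ℝ, 0 < variance π f ∧ r = dirichlet π f / variance π f}

/-! ### Basic properties of the weights -/

omit [Fintype V] [DecidableEq V] in
theorem bond_mk (σ : V → Bool) (i j : V) : bond σ s(i, j) = spin (σ i) * spin (σ j) := rfl

theorem spin_not (b : Bool) : spin (!b) = -spin b := by cases b <;> simp [spin]

omit [Fintype V] [DecidableEq V] in
theorem bond_sq (σ : V → Bool) (e : Sym2 V) : bond σ e = 1 ∨ bond σ e = -1 := by
  induction e with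
  | h i j =>
    rw [bond_mk]
    cases σ i <;> cases σ j <;> simp [spin]

omit [Fintype V] [DecidableEq V] in
theorem bond_neg (σ : V → Bool) (e : Sym2 V) : bond (neg σ) e = bond σ e := by
  induction e with
  | h i j =>
    rw [bond_mk, bond_mk]
    unfold neg
    rw [spin_not, spin_not]
    ring

omit [Fintype V] [DecidableEq V] in
theorem bond_supermodular (σ τ : V → Bool) (e : Sym2 V) :
    bond σ e + bond τ e ≤ bond (σ ⊓ τ) e + bond (σ ⊔ τ) e := by
  induction e with
  | h i j =>
    rw [bond_mk, bond_mk, bond_mk, bond_mk]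
    simp only [Pi.inf_apply, Pi.sup_apply]
    generalize σ i = a
    generalize σ j = b
    generalize τ i = c
    generalize τ j = d
    cases a <;> cases b <;> cases c <;> cases d <;> norm_num [spin]

variable (G : SimpleGraph V) [DecidableRel G.Adj] (J : Sym2 V → ℝ)

theorem weight_pos (σ : V → Bool) : 0 < weight G J σ := Real.exp_pos _

theorem weight_neg (σ : V → Bool) : weight G J (neg σ) = weight G J σ := by
  unfold weight
  congr 1
  exact Finset.sum_congr rfl fun e _ => by rw [bond_neg]

theorem weight_fkg (hJ : ∀ e ∈ G.edgeSet, 0 ≤ J e) (σ τ : V → Bool) :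
    weight G J σ * weight G J τ ≤ weight G J (σ ⊓ τ) * weight G J (σ ⊔ τ) := by
  unfold weight
  rw [← Real.exp_add, ← Real.exp_add, ← Finset.sum_add_distrib, ← Finset.sum_add_distrib]
  apply Real.exp_le_exp.2
  refine Finset.sum_le_sum fun e he => ?_
  have h1 := bond_supermodular σ τ e
  have h2 := hJ e (SimpleGraph.mem_edgeFinset.1 he)
  nlinarith

/-! ### The gap and the unnormalised Poincare inequality -/

section Gap

variable {w : (V → Bool) → ℝ}

theorem dir_nonneg (hw : ∀ σ, 0 < w σ) (f : (V → Bool) → ℝ) : 0 ≤ dir w f :=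
  Finset.sum_nonneg fun σ _ => Finset.sum_nonneg fun v _ =>
    mul_nonneg (div_nonneg (mul_nonneg (hw _).le (hw _).le) (add_pos (hw _) (hw _)).le)
      (sq_nonneg _)

theorem dir_scale (hw : ∀ σ, 0 < w σ) {Z : ℝ} (hZ : 0 < Z) (f : (V → Bool) → ℝ) :
    dir (fun σ => w σ / Z) f = dir w f / Z := by
  unfold dir
  rw [Finset.sum_div]
  refine Finset.sum_congr rfl fun σ _ => ?_
  rw [Finset.sum_div]
  refine Finset.sum_congr rfl fun v _ => ?_
  have h1 : w σ + w (flip v σ) ≠ 0 := (add_pos (hw _) (hw _)).ne'
  have hZ' := hZ.ne'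
  have h2 : w σ / Z + w (flip v σ) / Z ≠ 0 := by
    rw [← add_div]
    exact div_ne_zero h1 hZ'
  field_simp

theorem dir_sub_const (f : (V → Bool) → ℝ) (m : ℝ) :
    dir w (fun σ => f σ - m) = dir w f := by
  unfold dir
  refine Finset.sum_congr rfl fun σ _ => Finset.sum_congr rfl fun v _ => ?_
  ring

/-- The normalisation of a positive weight. -/
noncomputable def normalize (w : (V → Bool) → ℝ) (σ : V → Bool) : ℝ :=
  w σ / ∑ τ : V → Bool, w τ

theorem sum_pos' (hw : ∀ σ, 0 < w σ) : 0 < ∑ τ : V → Bool, w τ :=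
  Finset.sum_pos (fun σ _ => hw σ) Finset.univ_nonempty

theorem dirichlet_eq (hw : ∀ σ, 0 < w σ) (f : (V → Bool) → ℝ) :
    dirichlet (normalize w) f =
      (1 / (2 * (Fintype.card V : ℝ))) * (dir w f / ∑ τ : V → Bool, w τ) := by
  have := dir_scale hw (sum_pos' hw) f
  unfold dirichlet
  rw [← this]
  rfl

theorem variance_eq (w f : (V → Bool) → ℝ) :
    variance (normalize w) f =
      ip w (fun σ => f σ - ∑ τ, normalize w τ * f τ) (fun σ => f σ - ∑ τ, normalize w τ * f τ) /
        ∑ τ : V → Bool, w τ := by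
  unfold variance ip
  rw [Finset.sum_div]
  refine Finset.sum_congr rfl fun σ _ => ?_
  unfold normalize
  ring

theorem centred (hw : ∀ σ, 0 < w σ) (f : (V → Bool) → ℝ) :
    ip w (fun σ => f σ - ∑ τ, normalize w τ * f τ) (fun _ => 1) = 0 := by
  have hZ := sum_pos' hw
  have h1 : ∑ τ, normalize w τ * f τ = (∑ τ, w τ * f τ) / ∑ τ : V → Bool, w τ := by
    unfold normalize
    rw [Finset.sum_div]
    exact Finset.sum_congr rfl fun τ _ => by ring
  rw [h1]
  set m := (∑ τ, w τ * f τ) / ∑ τ : V → Bool, w τ with hm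
  have h2 : m * ∑ τ : V → Bool, w τ = ∑ τ, w τ * f τ := div_mul_cancel₀ _ hZ.ne'
  unfold ip
  have h3 : ∑ σ, w σ * ((f σ - m) * 1) = ∑ σ, w σ * f σ - m * ∑ σ, w σ := by
    rw [Finset.mul_sum, ← Finset.sum_sub_distrib]
    exact Finset.sum_congr rfl fun σ _ => by ring
  rw [h3, h2, sub_self]

theorem ip_self_pos (hw : ∀ σ, 0 < w σ) {g : (V → Bool) → ℝ} {σ : V → Bool} (h : g σ ≠ 0) :
    0 < ip w g g :=
  lt_of_lt_of_le (mul_pos (hw σ) (mul_self_pos.2 h))
    (Finset.single_le_sum (f := fun σ => w σ * (g σ * g σ))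
      (fun σ _ => mul_nonneg (hw σ).le (mul_self_nonneg _)) (Finset.mem_univ σ))

/-- The gap gives the Poincare inequality. -/
theorem poincare_of_gap [Nonempty V] (hw : ∀ σ, 0 < w σ) {g : (V → Bool) → ℝ}
    (hg : ip w g (fun _ => 1) = 0) :
    (2 * (Fintype.card V : ℝ) * gap (normalize w)) * ip w g g ≤ dir w g := by
  have hn : (0 : ℝ) < Fintype.card V := by exact_mod_cast Fintype.card_pos
  by_cases h0 : ∀ σ, g σ = 0
  · have : ip w g g = 0 := by
      unfold ip
      exact Finset.sum_eq_zero fun σ _ => by rw [h0 σ]; ring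
    rw [this, mul_zero]
    exact dir_nonneg hw g
  · push Not at h0
    obtain ⟨σ, hσ⟩ := h0
    have hpos := ip_self_pos hw hσ
    have hZ := sum_pos' hw
    have hm : ∑ τ, normalize w τ * g τ = 0 := by
      have h1 : ∑ τ, normalize w τ * g τ = ip w g (fun _ => 1) / ∑ τ : V → Bool, w τ := by
        unfold normalize ip
        rw [Finset.sum_div]
        exact Finset.sum_congr rfl fun τ _ => by ring
      rw [h1, hg, zero_div]
    have hv : variance (normalize w) g = ip w g g / ∑ τ : V → Bool, w τ := by
      rw [variance_eq, hm]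
      simp
    have hvpos : 0 < variance (normalize w) g := by rw [hv]; exact div_pos hpos hZ
    have hle : gap (normalize w) ≤ dirichlet (normalize w) g / variance (normalize w) g := by
      apply csInf_le
      · refine ⟨0, ?_⟩
        rintro r ⟨f, hf, rfl⟩
        apply div_nonneg _ hf.le
        rw [dirichlet_eq hw]
        have := dir_nonneg hw f
        positivity
      · exact ⟨g, hvpos, rfl⟩
    rw [dirichlet_eq hw, hv] at hle
    have h2 : 1 / (2 * (Fintype.card V : ℝ)) * (dir w g / ∑ τ : V → Bool, w τ) /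
        (ip w g g / ∑ τ : V → Bool, w τ) = dir w g / (2 * (Fintype.card V : ℝ) * ip w g g) := by
      field_simp
    rw [h2, le_div_iff₀ (by positivity)] at hle
    linarith

/-- A Poincare inequality bounds the gap from below. -/
theorem le_gap [Nonempty V] (hw : ∀ σ, 0 < w σ) {lam : ℝ}
    (h : ∀ g : (V → Bool) → ℝ, ip w g (fun _ => 1) = 0 → lam * ip w g g ≤ dir w g) :
    lam ≤ 2 * (Fintype.card V : ℝ) * gap (normalize w) := by
  have hn : (0 : ℝ) < Fintype.card V := by exact_mod_cast Fintype.card_pos
  have hZ := sum_pos' hw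
  have h1 : lam / (2 * (Fintype.card V : ℝ)) ≤ gap (normalize w) := by
    apply le_csInf
    · -- a function with positive variance: the indicator of one configuration
      by_contra hempty
      rw [Set.not_nonempty_iff_eq_empty] at hempty
      have hall : ∀ f : (V → Bool) → ℝ, ¬ 0 < variance (normalize w) f := by
        intro f hf
        have : dirichlet (normalize w) f / variance (normalize w) f ∈
            ({r : ℝ | ∃ f : (V → Bool) → ℝ, 0 < variance (normalize w) f ∧
              r = dirichlet (normalize w) f / variance (normalize w) f}) := ⟨f, hf, rfl⟩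
        rw [hempty] at this
        exact this
      apply hall (fun σ => if σ = fun _ => true then 1 else 0)
      rw [variance_eq]
      apply div_pos _ hZ
      set m := ∑ τ, normalize w τ * (if τ = (fun _ => true) then (1 : ℝ) else 0)
      by_cases hm : m = 0
      · apply ip_self_pos hw (σ := fun _ => true)
        simp [hm]
      · apply ip_self_pos hw (σ := fun _ => false)
        have hne : (fun _ : V => false) ≠ fun _ => true := by
          intro hcon
          have := congrFun hcon (Classical.arbitrary V)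
          simp at this
        simp [hne, hm]
    · rintro r ⟨f, hf, rfl⟩
      rw [dirichlet_eq hw, variance_eq]
      rw [variance_eq] at hf
      have hg0 := centred hw f
      set g := (fun σ => f σ - ∑ τ, normalize w τ * f τ) with hg
      have hd : dir w f = dir w g := (dir_sub_const f _).symm
      have hip : 0 < ip w g g := by
        rcases div_pos_iff.1 hf with h | h
        · exact h.1
        · exact absurd hZ (not_lt.2 h.2.le)
      have h2 : 1 / (2 * (Fintype.card V : ℝ)) * (dir w f / ∑ τ : V → Bool, w τ) /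
          (ip w g g / ∑ τ : V → Bool, w τ) = dir w g / (2 * (Fintype.card V : ℝ) * ip w g g) := by
        rw [hd]
        field_simp
      rw [h2, div_le_div_iff₀ (by positivity) (by positivity)]
      have := h g hg0
      nlinarith
  rw [div_le_iff₀ (by positivity)] at h1
  linarith

/-- Superadditivity of the Dirichlet form in the weight. -/
theorem harmonic_superadd {a b c d α β : ℝ} (ha : 0 < a) (hb : 0 < b) (hc : 0 < c) (hd : 0 < d)
    (hα : 0 ≤ α) (hβ : 0 ≤ β) (hpos : 0 < (α * a + β * c) + (α * b + β * d)) :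
    α * (a * b / (a + b)) + β * (c * d / (c + d)) ≤
      (α * a + β * c) * (α * b + β * d) / ((α * a + β * c) + (α * b + β * d)) := by
  rw [le_div_iff₀ hpos]
  have hp : 0 < a + b := add_pos ha hb
  have hq : 0 < c + d := add_pos hc hd
  have key : (α * a + β * c) * (α * b + β * d) -
      (α * (a * b / (a + b)) + β * (c * d / (c + d))) * (α * a + β * c + (α * b + β * d)) =
      α * β * (a * d - b * c) ^ 2 / ((a + b) * (c + d)) := by
    field_simp
    ring
  have h1 : 0 ≤ α * β * (a * d - b * c) ^ 2 / ((a + b) * (c + d)) := by positivity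
  linarith

theorem dir_superadd {u v w : (V → Bool) → ℝ} (hu : ∀ σ, 0 < u σ) (hv : ∀ σ, 0 < v σ)
    (hw : ∀ σ, 0 < w σ) {α β : ℝ} (hα : 0 ≤ α) (hβ : 0 ≤ β)
    (h : ∀ σ, w σ = α * u σ + β * v σ) (f : (V → Bool) → ℝ) :
    α * dir u f + β * dir v f ≤ dir w f := by
  unfold dir
  rw [Finset.mul_sum, Finset.mul_sum, ← Finset.sum_add_distrib]
  refine Finset.sum_le_sum fun σ _ => ?_
  rw [Finset.mul_sum, Finset.mul_sum, ← Finset.sum_add_distrib]
  refine Finset.sum_le_sum fun x _ => ?_
  have h1 := harmonic_superadd (hu σ) (hu (flip x σ)) (hv σ) (hv (flip x σ)) hα hβ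
    (by rw [← h, ← h]; exact add_pos (hw _) (hw _))
  rw [← h, ← h] at h1
  have h2 := mul_le_mul_of_nonneg_right h1 (sq_nonneg (f σ - f (flip x σ)))
  calc _ = (α * (u σ * u (flip x σ) / (u σ + u (flip x σ))) +
        β * (v σ * v (flip x σ) / (v σ + v (flip x σ)))) * (f σ - f (flip x σ)) ^ 2 := by ring
    _ ≤ _ := h2

theorem ip_add_weight {u v w : (V → Bool) → ℝ} {α β : ℝ}
    (h : ∀ σ, w σ = α * u σ + β * v σ) (f g : (V → Bool) → ℝ) :
    ip w f g = α * ip u f g + β * ip v f g := by
  unfold ip
  rw [Finset.mul_sum, Finset.mul_sum, ← Finset.sum_add_distrib]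
  exact Finset.sum_congr rfl fun σ _ => by rw [h]; ring

/-- The comparison principle: if `w` is a nonnegative combination of `u` and `v`, where the odd
functions satisfy the Poincare inequality with constant `lam` for `u` and `v`, and `w` is
flip-invariant and satisfies the FKG lattice condition, then `lam` bounds the gap of `w`. -/
theorem le_gap_of_combination [Nonempty V] {u v w : (V → Bool) → ℝ} (hu : ∀ σ, 0 < u σ)
    (hv : ∀ σ, 0 < v σ) (hw : ∀ σ, 0 < w σ) {α β lam : ℝ} (hα : 0 ≤ α) (hβ : 0 ≤ β)
    (h : ∀ σ, w σ = α * u σ + β * v σ) (hsym : ∀ σ, w (neg σ) = w σ)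
    (hfkg : ∀ σ τ, w σ * w τ ≤ w (σ ⊓ τ) * w (σ ⊔ τ))
    (hou : ∀ g : (V → Bool) → ℝ, Odd' g → lam * ip u g g ≤ dir u g)
    (hov : ∀ g : (V → Bool) → ℝ, Odd' g → lam * ip v g g ≤ dir v g) :
    lam ≤ 2 * (Fintype.card V : ℝ) * gap (normalize w) := by
  apply le_gap hw
  intro g hg
  apply poincare_of_odd hw hsym hfkg _ hg
  intro k hk
  rw [ip_add_weight h]
  calc lam * (α * ip u k k + β * ip v k k)
      = α * (lam * ip u k k) + β * (lam * ip v k k) := by ring
    _ ≤ α * dir u k + β * dir v k :=
        add_le_add (mul_le_mul_of_nonneg_left (hou k hk) hα)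
          (mul_le_mul_of_nonneg_left (hov k hk) hβ)
    _ ≤ dir w k := dir_superadd hu hv hw hα hβ h k

end Gap

theorem gibbs_eq : gibbs G J = normalize (weight G J) := rfl

/-- The odd functions satisfy the Poincare inequality given by the gap. -/
theorem odd_poincare [Nonempty V] {g : (V → Bool) → ℝ} (hg : Odd' g) :
    (2 * (Fintype.card V : ℝ) * gap (gibbs G J)) * ip (weight G J) g g ≤
      dir (weight G J) g := by
  rw [gibbs_eq]
  apply poincare_of_gap (weight_pos G J)
  exact ip_odd_even (weight_neg G J) hg (fun _ => rfl)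

/-- Splitting one edge off the weight. -/
theorem weight_update (e : Sym2 V) (he : e ∈ G.edgeSet) (x : ℝ) (σ : V → Bool) :
    weight G (Function.update J e x) σ =
      Real.exp (∑ e' ∈ G.edgeFinset.erase e, J e' * bond σ e') * Real.exp (x * bond σ e) := by
  unfold weight
  rw [← Real.exp_add, ← Finset.sum_erase_add _ _ (SimpleGraph.mem_edgeFinset.2 he)]
  congr 1
  congr 1
  · refine Finset.sum_congr rfl fun e' he' => ?_
    rw [Function.update_of_ne (Finset.ne_of_mem_erase he')]
  · rw [Function.update_self]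

/-- `exp (y h)` for `h = ±1` is a nonnegative combination of `exp (x h)` and `exp (z h)` when
`x ≤ y ≤ z`, `x < z`. -/
theorem exp_combination {x y z h : ℝ} (hxz : x < z) (hh : h = 1 ∨ h = -1) :
    Real.exp (y * h) = Real.sinh (z - y) / Real.sinh (z - x) * Real.exp (x * h) +
      Real.sinh (y - x) / Real.sinh (z - x) * Real.exp (z * h) := by
  have hs : Real.sinh (z - x) ≠ 0 := by
    rw [Real.sinh_ne_zero]
    exact (sub_pos.2 hxz).ne'
  rw [div_mul_eq_mul_div, div_mul_eq_mul_div, ← add_div, eq_div_iff hs]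
  rw [Real.sinh_eq, Real.sinh_eq, Real.sinh_eq]
  rcases hh with hh | hh
  · subst hh
    have e1 : Real.exp (z - x) = Real.exp z / Real.exp x := Real.exp_sub _ _
    have e2 : Real.exp (-(z - x)) = Real.exp x / Real.exp z := by rw [neg_sub, Real.exp_sub]
    have e3 : Real.exp (z - y) = Real.exp z / Real.exp y := Real.exp_sub _ _
    have e4 : Real.exp (-(z - y)) = Real.exp y / Real.exp z := by rw [neg_sub, Real.exp_sub]
    have e5 : Real.exp (y - x) = Real.exp y / Real.exp x := Real.exp_sub _ _
    have e6 : Real.exp (-(y - x)) = Real.exp x / Real.exp y := by rw [neg_sub, Real.exp_sub]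
    rw [e1, e2, e3, e4, e5, e6, mul_one, mul_one, mul_one]
    have := (Real.exp_pos x).ne'
    have := (Real.exp_pos y).ne'
    have := (Real.exp_pos z).ne'
    field_simp
    ring
  · subst hh
    have e1 : Real.exp (z - x) = Real.exp z / Real.exp x := Real.exp_sub _ _
    have e2 : Real.exp (-(z - x)) = Real.exp x / Real.exp z := by rw [neg_sub, Real.exp_sub]
    have e3 : Real.exp (z - y) = Real.exp z / Real.exp y := Real.exp_sub _ _
    have e4 : Real.exp (-(z - y)) = Real.exp y / Real.exp z := by rw [neg_sub, Real.exp_sub]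
    have e5 : Real.exp (y - x) = Real.exp y / Real.exp x := Real.exp_sub _ _
    have e6 : Real.exp (-(y - x)) = Real.exp x / Real.exp y := by rw [neg_sub, Real.exp_sub]
    have f1 : Real.exp (y * -1) = 1 / Real.exp y := by rw [mul_neg_one, Real.exp_neg, one_div]
    have f2 : Real.exp (x * -1) = 1 / Real.exp x := by rw [mul_neg_one, Real.exp_neg, one_div]
    have f3 : Real.exp (z * -1) = 1 / Real.exp z := by rw [mul_neg_one, Real.exp_neg, one_div]
    rw [e1, e2, e3, e4, e5, e6, f1, f2, f3]
    have := (Real.exp_pos x).ne'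
    have := (Real.exp_pos y).ne'
    have := (Real.exp_pos z).ne'
    field_simp
    ring

end Pool.Agent.Lib.MP_f82811_pr
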