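import Pool.Agent.Lib.MP_f82811_pr.Weights

/-!
# The odd sector determines the gap of a flip-invariant positively associated weight
-/

set_option autoImplicit false

namespace Pool.Agent.Lib.MP_f82811_pr

open Finset

variable {V : Type*} [Fintype V] [DecidableEq V] {w : (V → Bool) → ℝ}

theorem ceSum_lin (a b : ℝ) (f g : (V → Bool) → ℝ) :
    ceSum w (fun σ => a * f σ + b * g σ) = fun σ => a * ceSum w f σ + b * ceSum w g σ := by
  funext σ
  unfold ceSum
  rw [Finset.mul_sum, Finset.mul_sum, ← Finset.sum_add_distrib]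
  refine Finset.sum_congr rfl fun v _ => ?_
  unfold ce
  ring

theorem ceSum_one (hw : ∀ σ, 0 < w σ) :
    ceSum w (fun _ => 1) = fun _ => (Fintype.card V : ℝ) := by
  funext σ
  unfold ceSum
  have : ∀ v, ce w v (fun _ => 1) σ = 1 := by
    intro v
    unfold ce
    have hpos : w σ + w (flip v σ) ≠ 0 := (add_pos (hw _) (hw _)).ne'
    rw [mul_one, mul_one, div_self hpos]
  simp [this]

/-- The iterates of the sum of conditional expectations. -/
noncomputable def iter (w : (V → Bool) → ℝ) (k : ℕ) (f : (V → Bool) → ℝ) : (V → Bool) → ℝ :=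
  (ceSum w)^[k] f

theorem iter_zero (f : (V → Bool) → ℝ) : iter w 0 f = f := rfl

theorem iter_succ (k : ℕ) (f : (V → Bool) → ℝ) : iter w (k + 1) f = ceSum w (iter w k f) :=
  Function.iterate_succ_apply' _ _ _

theorem iter_lin (k : ℕ) (a b : ℝ) (f g : (V → Bool) → ℝ) :
    iter w k (fun σ => a * f σ + b * g σ) = fun σ => a * iter w k f σ + b * iter w k g σ := by
  induction k with
  | zero => rfl
  | succ k ih => rw [iter_succ, ih, ceSum_lin, iter_succ, iter_succ]

theorem iter_mean (hw : ∀ σ, 0 < w σ) (k : ℕ) (f : (V → Bool) → ℝ)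
    (hf : ip w f (fun _ => 1) = 0) : ip w (iter w k f) (fun _ => 1) = 0 := by
  induction k with
  | zero => exact hf
  | succ k ih =>
    rw [iter_succ, ← ip_ceSum_symm hw, ceSum_one hw]
    have : (fun _ : V → Bool => (Fintype.card V : ℝ)) =
        fun σ => (Fintype.card V : ℝ) * (fun _ : V → Bool => (1 : ℝ)) σ := by
      funext σ; ring
    rw [this, ip_smul_right, ih, mul_zero]

/-! ### Parity -/

omit [Fintype V] in
theorem ce_neg (hsym : ∀ σ, w (neg σ) = w σ) (v : V) (f : (V → Bool) → ℝ) (σ : V → Bool) :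
    ce w v (fun τ => f (neg τ)) σ = ce w v f (neg σ) := by
  unfold ce
  rw [← neg_flip, hsym, hsym]

theorem ceSum_neg (hsym : ∀ σ, w (neg σ) = w σ) (f : (V → Bool) → ℝ) (σ : V → Bool) :
    ceSum w (fun τ => f (neg τ)) σ = ceSum w f (neg σ) := by
  unfold ceSum
  exact Finset.sum_congr rfl fun v _ => ce_neg hsym v f σ

theorem iter_neg (hsym : ∀ σ, w (neg σ) = w σ) (k : ℕ) (f : (V → Bool) → ℝ) :
    iter w k (fun τ => f (neg τ)) = fun σ => iter w k f (neg σ) := by
  induction k with
  | zero => rfl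
  | succ k ih =>
    rw [iter_succ, ih, iter_succ]
    funext σ
    exact ceSum_neg hsym _ σ

theorem ip_neg (hsym : ∀ σ, w (neg σ) = w σ) (f g : (V → Bool) → ℝ) :
    ip w (fun σ => f (neg σ)) (fun σ => g (neg σ)) = ip w f g := by
  unfold ip
  rw [← sum_neg (fun σ => w σ * (f σ * g σ))]
  exact Finset.sum_congr rfl fun σ _ => by rw [hsym]

/-- Odd functions. -/
def Odd' (f : (V → Bool) → ℝ) : Prop := ∀ σ, f (neg σ) = -f σ

/-- Even functions. -/
def Even' (f : (V → Bool) → ℝ) : Prop := ∀ σ, f (neg σ) = f σ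

theorem ip_odd_even (hsym : ∀ σ, w (neg σ) = w σ) {f g : (V → Bool) → ℝ} (hf : Odd' f)
    (hg : Even' g) : ip w f g = 0 := by
  have h := ip_neg hsym f g
  have h2 : ip w (fun σ => f (neg σ)) (fun σ => g (neg σ)) = -ip w f g := by
    unfold ip
    rw [← Finset.sum_neg_distrib]
    refine Finset.sum_congr rfl fun σ _ => ?_
    have h1 := hf σ
    have h2 := hg σ
    simp only
    rw [h1, h2]; ring
  linarith

theorem ceSum_odd (hsym : ∀ σ, w (neg σ) = w σ) {f : (V → Bool) → ℝ} (hf : Odd' f) :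
    Odd' (ceSum w f) := by
  intro σ
  rw [← ceSum_neg hsym]
  have : (fun τ => f (neg τ)) = fun τ => (-1) * f τ + 0 * f τ := by
    funext τ; rw [hf τ]; ring
  rw [this, ceSum_lin]
  ring

theorem ceSum_even (hsym : ∀ σ, w (neg σ) = w σ) {f : (V → Bool) → ℝ} (hf : Even' f) :
    Even' (ceSum w f) := by
  intro σ
  rw [← ceSum_neg hsym]
  have : (fun τ => f (neg τ)) = f := by
    funext τ; rw [hf τ]
  rw [this]

theorem iter_odd (hsym : ∀ σ, w (neg σ) = w σ) {f : (V → Bool) → ℝ} (hf : Odd' f) (k : ℕ) :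
    Odd' (iter w k f) := by
  induction k with
  | zero => exact hf
  | succ k ih => rw [iter_succ]; exact ceSum_odd hsym ih

theorem iter_even (hsym : ∀ σ, w (neg σ) = w σ) {f : (V → Bool) → ℝ} (hf : Even' f) (k : ℕ) :
    Even' (iter w k f) := by
  induction k with
  | zero => exact hf
  | succ k ih => rw [iter_succ]; exact ceSum_even hsym ih

/-! ### Monotonicity -/

omit [Fintype V] in
theorem ce_eq_update (v : V) (f : (V → Bool) → ℝ) (σ : V → Bool) :
    ce w v f σ = (w (Function.update σ v true) * f (Function.update σ v true) +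
      w (Function.update σ v false) * f (Function.update σ v false)) /
      (w (Function.update σ v true) + w (Function.update σ v false)) := by
  unfold ce flip
  by_cases h : σ v = true
  · have h1 : Function.update σ v true = σ := by rw [← h]; exact Function.update_eq_self v σ
    rw [h1]
    simp [h]
  · have h' : σ v = false := by simpa using h
    have h1 : Function.update σ v false = σ := by rw [← h']; exact Function.update_eq_self v σ
    rw [h1]
    simp only [h', Bool.not_false]
    rw [add_comm, add_comm (w σ)]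

omit [Fintype V] in
theorem update_cross (hfkg : ∀ σ τ, w σ * w τ ≤ w (σ ⊓ τ) * w (σ ⊔ τ)) (v : V)
    {σ τ : V → Bool} (h : σ ≤ τ) :
    w (Function.update σ v true) * w (Function.update τ v false) ≤
      w (Function.update σ v false) * w (Function.update τ v true) := by
  have h1 := hfkg (Function.update σ v true) (Function.update τ v false)
  have h2 : Function.update σ v true ⊓ Function.update τ v false =
      Function.update σ v false := by
    funext i
    by_cases hi : i = v
    · subst hi; simp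
    · simp only [Pi.inf_apply, Function.update_of_ne hi]
      exact inf_eq_left.2 (h i)
  have h3 : Function.update σ v true ⊔ Function.update τ v false =
      Function.update τ v true := by
    funext i
    by_cases hi : i = v
    · subst hi; simp
    · simp only [Pi.sup_apply, Function.update_of_ne hi]
      exact sup_eq_right.2 (h i)
  rwa [h2, h3] at h1

omit [Fintype V] in
theorem ce_mono (hw : ∀ σ, 0 < w σ) (hfkg : ∀ σ τ, w σ * w τ ≤ w (σ ⊓ τ) * w (σ ⊔ τ)) (v : V)
    {f : (V → Bool) → ℝ} (hf : Monotone f) : Monotone (ce w v f) := by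
  intro σ τ h
  rw [ce_eq_update, ce_eq_update]
  have hc := update_cross hfkg v h
  have h1 : f (Function.update σ v true) ≤ f (Function.update τ v true) :=
    hf (update_le_update_iff.2 ⟨le_rfl, fun i _ => h i⟩)
  have h2 : f (Function.update σ v false) ≤ f (Function.update τ v false) :=
    hf (update_le_update_iff.2 ⟨le_rfl, fun i _ => h i⟩)
  have h3 : f (Function.update τ v false) ≤ f (Function.update τ v true) :=
    hf (update_le_update_iff.2 ⟨Bool.false_le _, fun i _ => le_rfl⟩)
  have a0 := hw (Function.update σ v true)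
  have b0 := hw (Function.update σ v false)
  have c0 := hw (Function.update τ v true)
  have d0 := hw (Function.update τ v false)
  generalize w (Function.update σ v true) = a at *
  generalize w (Function.update σ v false) = b at *
  generalize w (Function.update τ v true) = c at *
  generalize w (Function.update τ v false) = d at *
  generalize f (Function.update σ v true) = x at *
  generalize f (Function.update σ v false) = y at *
  generalize f (Function.update τ v true) = X at *
  generalize f (Function.update τ v false) = Y at *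
  rw [div_le_div_iff₀ (add_pos a0 b0) (add_pos c0 d0)]
  have e1 : (a * x + b * y) * (c + d) ≤ (a * X + b * Y) * (c + d) := by
    apply mul_le_mul_of_nonneg_right _ (add_pos c0 d0).le
    nlinarith
  have e2 : (c * X + d * Y) * (a + b) - (a * X + b * Y) * (c + d) =
      (X - Y) * (b * c - a * d) := by ring
  have e3 : 0 ≤ (X - Y) * (b * c - a * d) :=
    mul_nonneg (sub_nonneg.2 h3) (sub_nonneg.2 hc)
  linarith

theorem ceSum_mono (hw : ∀ σ, 0 < w σ) (hfkg : ∀ σ τ, w σ * w τ ≤ w (σ ⊓ τ) * w (σ ⊔ τ))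
    {f : (V → Bool) → ℝ} (hf : Monotone f) : Monotone (ceSum w f) := fun _ _ h =>
  Finset.sum_le_sum fun v _ => ce_mono hw hfkg v hf h

theorem iter_mono (hw : ∀ σ, 0 < w σ) (hfkg : ∀ σ τ, w σ * w τ ≤ w (σ ⊓ τ) * w (σ ⊔ τ))
    {f : (V → Bool) → ℝ} (hf : Monotone f) (k : ℕ) : Monotone (iter w k f) := by
  induction k with
  | zero => exact hf
  | succ k ih => rw [iter_succ]; exact ceSum_mono hw hfkg ih

/-- The FKG inequality for mean zero functions, no sign condition. -/
theorem fkg_ip (hw : ∀ σ, 0 < w σ) (hfkg : ∀ σ τ, w σ * w τ ≤ w (σ ⊓ τ) * w (σ ⊔ τ))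
    {f g : (V → Bool) → ℝ} (hf : Monotone f) (hg : Monotone g)
    (hf0 : ip w f (fun _ => 1) = 0) : 0 ≤ ip w f g := by
  have hfb : ∀ σ, 0 ≤ f σ - f (fun _ => false) := fun σ =>
    sub_nonneg.2 (hf fun i => Bool.false_le _)
  have hgb : ∀ σ, 0 ≤ g σ - g (fun _ => false) := fun σ =>
    sub_nonneg.2 (hg fun i => Bool.false_le _)
  have h := fkg (fun σ => f σ - f (fun _ => false)) (fun σ => g σ - g (fun _ => false)) w
    (fun σ => (hw σ).le) hfb hgb (fun σ τ h => sub_le_sub_right (hf h) _)
    (fun σ τ h => sub_le_sub_right (hg h) _) hfkg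
  have hf0' : ∑ σ, w σ * f σ = 0 := by
    rw [← hf0]; unfold ip
    exact Finset.sum_congr rfl fun σ _ => by ring
  set c := f (fun _ => false)
  set d := g (fun _ => false)
  have e1 : ∑ σ, w σ * (f σ - c) = -(c * ∑ σ, w σ) := by
    have : ∑ σ, w σ * (f σ - c) = ∑ σ, w σ * f σ - c * ∑ σ, w σ := by
      rw [Finset.mul_sum, ← Finset.sum_sub_distrib]
      exact Finset.sum_congr rfl fun σ _ => by ring
    rw [this, hf0']; ring
  have e2 : ∑ σ, w σ * (g σ - d) = ∑ σ, w σ * g σ - d * ∑ σ, w σ := by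
    rw [Finset.mul_sum, ← Finset.sum_sub_distrib]
    exact Finset.sum_congr rfl fun σ _ => by ring
  have e3 : ∑ σ, w σ * ((f σ - c) * (g σ - d)) =
      ip w f g - d * ∑ σ, w σ * f σ - c * ∑ σ, w σ * g σ + c * d * ∑ σ, w σ := by
    unfold ip
    rw [Finset.mul_sum, Finset.mul_sum, Finset.mul_sum, ← Finset.sum_sub_distrib,
      ← Finset.sum_sub_distrib, ← Finset.sum_add_distrib]
    exact Finset.sum_congr rfl fun σ _ => by ring
  rw [e1, e2, e3, hf0'] at h
  have hZ : 0 < ∑ σ : V → Bool, w σ := Finset.sum_pos (fun σ _ => hw σ) Finset.univ_nonempty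
  have h' : 0 ≤ (∑ σ, w σ) * ip w f g := by nlinarith
  exact nonneg_of_mul_nonneg_right h' hZ

/-- The magnetisation. -/
def mag (σ : V → Bool) : ℝ := ∑ v, (if σ v then (1 : ℝ) else -1)

omit [DecidableEq V] in
theorem mag_odd : Odd' (mag (V := V)) := by
  intro σ
  unfold mag
  rw [← Finset.sum_neg_distrib]
  refine Finset.sum_congr rfl fun v _ => ?_
  unfold neg
  cases σ v <;> simp

theorem mag_lt {σ τ : V → Bool} (h : σ ≤ τ) (hne : σ ≠ τ) : mag σ + 2 ≤ mag τ := by
  obtain ⟨v, hv⟩ : ∃ v, σ v ≠ τ v := by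
    by_contra hcon
    push Not at hcon
    exact hne (funext hcon)
  unfold mag
  rw [← Finset.add_sum_erase _ _ (Finset.mem_univ v),
    ← Finset.add_sum_erase (f := fun v => if τ v then (1 : ℝ) else -1) _ (Finset.mem_univ v)]
  have h1 : σ v = false ∧ τ v = true := by
    have key : ∀ a b : Bool, a ≠ b → a ≤ b → a = false ∧ b = true := by decide
    exact key _ _ hv (h v)
  have h2 : ∑ x ∈ univ.erase v, (if σ x then (1 : ℝ) else -1) ≤
      ∑ x ∈ univ.erase v, (if τ x then (1 : ℝ) else -1) := by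
    refine Finset.sum_le_sum fun x _ => ?_
    have h0 : σ x = true → τ x = true := fun hx => by
      have := h x
      rw [hx] at this
      exact top_le_iff.1 this
    cases hs : σ x
    · cases τ x <;> norm_num
    · rw [h0 hs]
  rw [h1.1, h1.2]
  simp only [Bool.false_eq_true, if_false, if_true]
  linarith

/-- Adding a large multiple of the magnetisation makes a function monotone. -/
theorem exists_monotone (g : (V → Bool) → ℝ) :
    ∃ K : ℝ, Monotone (fun σ => K * mag σ + 1 * g σ) ∧
      Monotone (fun σ => K * mag σ + (-1) * g σ) := by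
  obtain ⟨B, hB⟩ : ∃ B : ℝ, ∀ σ, |g σ| ≤ B := by
    refine ⟨∑ σ, |g σ|, fun σ => ?_⟩
    exact Finset.single_le_sum (f := fun σ => |g σ|) (fun σ _ => abs_nonneg _)
      (Finset.mem_univ σ)
  have hB0 : 0 ≤ B := (abs_nonneg _).trans (hB (fun _ => false))
  refine ⟨B, fun σ τ h => ?_, fun σ τ h => ?_⟩
  · by_cases hne : σ = τ
    · rw [hne]
    · have h1 := mag_lt h hne
      have h2 := abs_le.1 (hB σ)
      have h3 := abs_le.1 (hB τ)
      simp only
      nlinarith
  · by_cases hne : σ = τ
    · rw [hne]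
    · have h1 := mag_lt h hne
      have h2 := abs_le.1 (hB σ)
      have h3 := abs_le.1 (hB τ)
      simp only
      nlinarith

/-- A geometric growth lemma: a log-convex nonnegative sequence bounded by `C * r ^ k` grows
initially at rate at most `r`. -/
theorem log_convex_bound (a : ℕ → ℝ) (ha : ∀ k, 0 ≤ a k)
    (hc : ∀ k, a (k + 1) ^ 2 ≤ a k * a (k + 2)) (C r : ℝ) (hr : 0 ≤ r)
    (hb : ∀ k, a k ≤ C * r ^ k) : a 1 ≤ r * a 0 := by
  by_contra hcon
  push Not at hcon
  have ha1 : 0 < a 1 := lt_of_le_of_lt (mul_nonneg hr (ha 0)) hcon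
  have ha0 : 0 < a 0 := by
    rcases (ha 0).lt_or_eq with h | h
    · exact h
    · exfalso
      have := hc 0
      rw [← h, zero_mul] at this
      nlinarith [pow_pos ha1 2]
  set q := a 1 / a 0 with hq
  have hqr : r < q := by rw [hq, lt_div_iff₀ ha0]; exact hcon
  have hq0 : 0 < q := div_pos ha1 ha0
  -- a (k+1) ≥ q a k and a k > 0
  have key : ∀ k, 0 < a k ∧ q * a k ≤ a (k + 1) := by
    intro k
    induction k with
    | zero => exact ⟨ha0, by rw [hq, div_mul_cancel₀ _ ha0.ne']⟩
    | succ k ih =>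
      have hpos : 0 < a (k + 1) := lt_of_lt_of_le (mul_pos hq0 ih.1) ih.2
      refine ⟨hpos, ?_⟩
      have h1 := hc k
      have h2 : a (k + 1) * (q * a k) ≤ a (k + 1) * a (k + 1) :=
        mul_le_mul_of_nonneg_left ih.2 hpos.le
      have h3 : a k * (q * a (k + 1)) ≤ a k * a (k + 2) := by nlinarith
      exact le_of_mul_le_mul_left h3 ih.1
  have hgrow : ∀ k, q ^ k * a 0 ≤ a k := by
    intro k
    induction k with
    | zero => simp
    | succ k ih =>
      calc q ^ (k + 1) * a 0 = q * (q ^ k * a 0) := by ring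
        _ ≤ q * a k := mul_le_mul_of_nonneg_left ih hq0.le
        _ ≤ a (k + 1) := (key k).2
  have hC : 0 < C := by
    have := hb 0
    rw [pow_zero, mul_one] at this
    linarith
  -- (q / r)^k is bounded
  rcases hr.lt_or_eq with hr0 | hr0
  · have h1 : 1 < q / r := (one_lt_div hr0).2 hqr
    obtain ⟨k, hk⟩ := pow_unbounded_of_one_lt (C / a 0) h1
    have h2 : q ^ k * a 0 ≤ C * r ^ k := (hgrow k).trans (hb k)
    rw [div_pow, div_lt_div_iff₀ ha0 (pow_pos hr0 k)] at hk
    linarith
  · have := (hgrow 1).trans (hb 1)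
    rw [← hr0, pow_one, pow_one, mul_zero] at this
    nlinarith [mul_pos hq0 ha0]

section Main

variable (hw : ∀ σ, 0 < w σ) (hsym : ∀ σ, w (neg σ) = w σ)
  (hfkg : ∀ σ τ, w σ * w τ ≤ w (σ ⊓ τ) * w (σ ⊔ τ)) {ρ : ℝ}
  (hρ : ∀ g : (V → Bool) → ℝ, Odd' g → ip w g (ceSum w g) ≤ ρ * ip w g g)

include hw hsym hρ in
theorem odd_step (hρ0 : 0 ≤ ρ) {g : (V → Bool) → ℝ} (hg : Odd' g) :
    ip w (ceSum w g) (ceSum w g) ≤ ρ ^ 2 * ip w g g := by
  set N := ip w (ceSum w g) (ceSum w g) with hN
  have h1 : ip w g (ceSum w (ceSum w g)) = N := by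
    rw [ip_ceSum_symm hw]
  have h2 := ip_ceSum_sq_le hw g (ceSum w g)
  rw [h1] at h2
  have h3 := hρ g hg
  have h4 := hρ (ceSum w g) (ceSum_odd hsym hg)
  have h5 : 0 ≤ ip w g g := ip_self_nonneg hw g
  have h6 : 0 ≤ N := ip_self_nonneg hw _
  have h7 : 0 ≤ ip w g (ceSum w g) := ip_ceSum_nonneg hw g
  have h8 : ip w g (ceSum w g) * ip w (ceSum w g) (ceSum w (ceSum w g)) ≤
      (ρ * ip w g g) * (ρ * N) :=
    mul_le_mul h3 h4 (ip_ceSum_nonneg hw _) (mul_nonneg hρ0 h5)
  have h9 : N * N ≤ (ρ ^ 2 * ip w g g) * N := by nlinarith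
  rcases h6.lt_or_eq with h | h
  · exact le_of_mul_le_mul_right h9 h
  · rw [← h]; positivity

include hw hsym hρ in
theorem odd_iter (hρ0 : 0 ≤ ρ) {g : (V → Bool) → ℝ} (hg : Odd' g) (k : ℕ) :
    ip w (iter w k g) (iter w k g) ≤ ip w g g * (ρ ^ 2) ^ k := by
  induction k with
  | zero => simp [iter_zero]
  | succ k ih =>
    rw [iter_succ]
    have h1 := odd_step hw hsym hρ hρ0 (iter_odd hsym hg k)
    calc _ ≤ ρ ^ 2 * ip w (iter w k g) (iter w k g) := h1
      _ ≤ ρ ^ 2 * (ip w g g * (ρ ^ 2) ^ k) := mul_le_mul_of_nonneg_left ih (sq_nonneg ρ)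
      _ = _ := by ring

include hw hsym hfkg hρ in
theorem even_bound (hρ0 : 0 ≤ ρ) {g : (V → Bool) → ℝ} (hg : Even' g)
    (hg0 : ip w g (fun _ => 1) = 0) : ip w g (ceSum w g) ≤ ρ * ip w g g := by
  obtain ⟨K, hK1, hK2⟩ := exists_monotone g
  have hm0 : ip w (mag (V := V)) (fun _ => 1) = 0 := ip_odd_even hsym mag_odd (fun _ => rfl)
  have hf0 : ip w (fun σ => K * mag σ + 1 * g σ) (fun _ => 1) = 0 := by
    rw [ip_add_left, ip_smul_left, ip_smul_left, hm0, hg0]; ring
  -- the norms of the iterates of g are dominated by those of the magnetisation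
  have hdom : ∀ k, ip w (iter w k g) (iter w k g) ≤
      (K ^ 2 * ip w (mag (V := V)) mag) * (ρ ^ 2) ^ k := by
    intro k
    have h1 := fkg_ip hw hfkg (iter_mono hw hfkg hK1 k) (iter_mono hw hfkg hK2 k)
      (iter_mean hw k _ hf0)
    rw [iter_lin, iter_lin] at h1
    have h2 : ip w (fun σ => K * iter w k mag σ + 1 * iter w k g σ)
        (fun σ => K * iter w k mag σ + (-1) * iter w k g σ) =
        K ^ 2 * ip w (iter w k mag) (iter w k mag) - ip w (iter w k g) (iter w k g) := by
      have hcross : ip w (iter w k mag) (iter w k g) = 0 :=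
        ip_odd_even hsym (iter_odd hsym mag_odd k) (iter_even hsym hg k)
      rw [ip_add_left, ip_add_right, ip_add_right, ip_smul_left, ip_smul_left, ip_smul_left,
        ip_smul_left, ip_smul_right, ip_smul_right, ip_smul_right, ip_smul_right,
        ip_comm (iter w k g) (iter w k mag), hcross]
      ring
    rw [h2] at h1
    have h3 := odd_iter hw hsym hρ hρ0 (mag_odd (V := V)) k
    have h4 : K ^ 2 * ip w (iter w k mag) (iter w k mag) ≤
        K ^ 2 * (ip w (mag (V := V)) mag * (ρ ^ 2) ^ k) :=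
      mul_le_mul_of_nonneg_left h3 (sq_nonneg K)
    linarith
  have hlc : ∀ k, ip w (iter w (k + 1) g) (iter w (k + 1) g) ^ 2 ≤
      ip w (iter w k g) (iter w k g) * ip w (iter w (k + 2) g) (iter w (k + 2) g) := by
    intro k
    have h1 : ip w (iter w (k + 1) g) (iter w (k + 1) g) =
        ip w (iter w k g) (iter w (k + 2) g) := by
      rw [iter_succ (k + 1) g, ip_ceSum_symm hw, iter_succ k g]
    rw [h1]
    exact ip_sq_le hw _ _
  have h1 := log_convex_bound (fun k => ip w (iter w k g) (iter w k g))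
    (fun k => ip_self_nonneg hw _) hlc _ (ρ ^ 2) (sq_nonneg ρ) hdom
  simp only [iter_zero] at h1
  have h1' : ip w (ceSum w g) (ceSum w g) ≤ ρ ^ 2 * ip w g g := h1
  have h2 := ip_sq_le hw g (ceSum w g)
  have h3 : 0 ≤ ip w g g := ip_self_nonneg hw g
  have h4 : ip w g (ceSum w g) ^ 2 ≤ (ρ * ip w g g) ^ 2 := by
    calc _ ≤ ip w g g * ip w (ceSum w g) (ceSum w g) := h2
      _ ≤ ip w g g * (ρ ^ 2 * ip w g g) := mul_le_mul_of_nonneg_left h1' h3
      _ = _ := by ring
  exact le_of_abs_le (abs_le_of_sq_le_sq h4 (mul_nonneg hρ0 h3))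

include hw hsym hfkg in
/-- If the odd functions satisfy a Poincare inequality with constant `lam`, so do all
functions. -/
theorem poincare_of_odd [Nonempty V] {lam : ℝ}
    (hodd : ∀ g : (V → Bool) → ℝ, Odd' g → lam * ip w g g ≤ dir w g)
    {f : (V → Bool) → ℝ} (hf : ip w f (fun _ => 1) = 0) : lam * ip w f f ≤ dir w f := by
  set n : ℝ := (Fintype.card V : ℝ) with hn
  have hρ : ∀ g : (V → Bool) → ℝ, Odd' g → ip w g (ceSum w g) ≤ (n - lam / 2) * ip w g g := by
    intro g hg
    have h1 := hodd g hg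
    rw [dir_eq hw] at h1
    linarith
  have hρ0 : 0 ≤ n - lam / 2 := by
    have hm := hρ mag mag_odd
    have hm1 := ip_ceSum_nonneg hw (mag (V := V))
    have hm2 : 0 < ip w (mag (V := V)) mag := by
      have h1 : w (fun _ => true) * (mag (V := V) (fun _ => true) * mag (V := V) (fun _ => true))
          ≤ ip w (mag (V := V)) mag :=
        Finset.single_le_sum (f := fun σ => w σ * (mag (V := V) σ * mag σ))
          (fun σ _ => mul_nonneg (hw σ).le (mul_self_nonneg _)) (Finset.mem_univ _)
      have h2 : mag (V := V) (fun _ => true) = n := by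
        unfold mag
        simp [hn]
      have h3 : 0 < n := by rw [hn]; exact_mod_cast Fintype.card_pos
      rw [h2] at h1
      exact lt_of_lt_of_le (mul_pos (hw _) (mul_pos h3 h3)) h1
    by_contra hcon
    push Not at hcon
    nlinarith [mul_pos (neg_pos.2 hcon) hm2]
  -- parity decomposition
  obtain ⟨fo, hfo⟩ : ∃ fo : (V → Bool) → ℝ,
      fo = fun σ => (1 / 2) * f σ + (-(1 / 2)) * f (neg σ) := ⟨_, rfl⟩
  obtain ⟨fe, hfe⟩ : ∃ fe : (V → Bool) → ℝ,
      fe = fun σ => (1 / 2) * f σ + (1 / 2) * f (neg σ) := ⟨_, rfl⟩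
  have hfo_odd : Odd' fo := by
    intro σ
    simp only [hfo, neg_neg']
    ring
  have hfe_even : Even' fe := by
    intro σ
    simp only [hfe, neg_neg']
    ring
  have hdec : f = fun σ => fo σ + fe σ := by
    funext σ
    simp only [hfo, hfe]
    ring
  have hA : ceSum w f = fun σ => ceSum w fo σ + ceSum w fe σ := by
    rw [hdec]
    have := ceSum_lin (w := w) 1 1 fo fe
    simp only [one_mul] at this
    exact this
  have hfe0 : ip w fe (fun _ => 1) = 0 := by
    have h1 : ip w f (fun _ => 1) = ip w fo (fun _ => 1) + ip w fe (fun _ => 1) := by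
      conv_lhs => rw [hdec]
      rw [ip_add_left]
    have h2 : ip w fo (fun _ => 1) = 0 := ip_odd_even hsym hfo_odd (fun _ => rfl)
    linarith
  have hb1 := hρ fo hfo_odd
  have hb2 := even_bound hw hsym hfkg hρ hρ0 hfe_even hfe0
  have e1 : ip w f f = ip w fo fo + ip w fe fe := by
    have hc : ip w fo fe = 0 := ip_odd_even hsym hfo_odd hfe_even
    conv_lhs => rw [hdec]
    rw [ip_add_left, ip_add_right, ip_add_right, ip_comm fe fo, hc]
    ring
  have e2 : ip w f (ceSum w f) = ip w fo (ceSum w fo) + ip w fe (ceSum w fe) := by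
    rw [hA]
    have hc1 : ip w fo (ceSum w fe) = 0 :=
      ip_odd_even hsym hfo_odd (ceSum_even hsym hfe_even)
    have hc2 : ip w fe (ceSum w fo) = 0 := by
      rw [ip_comm]
      exact ip_odd_even hsym (ceSum_odd hsym hfo_odd) hfe_even
    conv_lhs => rw [hdec]
    rw [ip_add_left, ip_add_right, ip_add_right, hc1, hc2]
    ring
  rw [dir_eq hw, e1, e2, ← hn]
  linarith

end Main

end Pool.Agent.Lib.MP_f82811_pr
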