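import Mathlib

/-!
# Heat-bath dynamics for a positive weight on `V → Bool`: the odd sector determines the gap

General facts about the heat-bath (Glauber) Dirichlet form of a positive weight on the
configurations `V → Bool`.
-/

set_option autoImplicit false

namespace Pool.Agent.Lib.MP_f82811_pr

open Finset

variable {V : Type*} [Fintype V] [DecidableEq V]

/-- Flip the spin at `v`. -/
def flip (v : V) (σ : V → Bool) : V → Bool := Function.update σ v (!σ v)

/-- Flip all spins. -/
def neg (σ : V → Bool) : V → Bool := fun i => !σ i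

omit [Fintype V] in
@[simp] theorem flip_flip (v : V) (σ : V → Bool) : flip v (flip v σ) = σ := by
  ext i
  by_cases h : i = v
  · subst h; simp [flip]
  · simp [flip, h]

omit [Fintype V] [DecidableEq V] in
@[simp] theorem neg_neg' (σ : V → Bool) : neg (neg σ) = σ := by
  ext i; simp [neg]

omit [Fintype V] in
theorem neg_flip (v : V) (σ : V → Bool) : neg (flip v σ) = flip v (neg σ) := by
  ext i
  by_cases h : i = v
  · subst h; simp [flip, neg]
  · simp [flip, neg, h]

theorem sum_flip (v : V) (F : (V → Bool) → ℝ) : ∑ σ, F (flip v σ) = ∑ σ, F σ :=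
  Function.Bijective.sum_comp (Function.Involutive.bijective (flip_flip v)) F

theorem sum_neg (F : (V → Bool) → ℝ) : ∑ σ, F (neg σ) = ∑ σ, F σ :=
  Function.Bijective.sum_comp (Function.Involutive.bijective (f := neg) neg_neg') F

variable (w : (V → Bool) → ℝ)

/-- The weighted inner product. -/
def ip (f g : (V → Bool) → ℝ) : ℝ := ∑ σ, w σ * (f σ * g σ)

/-- The conditional expectation at `v`. -/
noncomputable def ce (v : V) (f : (V → Bool) → ℝ) (σ : V → Bool) : ℝ :=
  (w σ * f σ + w (flip v σ) * f (flip v σ)) / (w σ + w (flip v σ))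

/-- The sum over all sites of the conditional expectations. -/
noncomputable def ceSum (f : (V → Bool) → ℝ) (σ : V → Bool) : ℝ := ∑ v, ce w v f σ

/-- (Twice) the Dirichlet form. -/
noncomputable def dir (f : (V → Bool) → ℝ) : ℝ :=
  ∑ σ, ∑ v, w σ * w (flip v σ) / (w σ + w (flip v σ)) * (f σ - f (flip v σ)) ^ 2

variable {w}

omit [Fintype V] in
theorem ce_flip (v : V) (f : (V → Bool) → ℝ) (σ : V → Bool) :
    ce w v f (flip v σ) = ce w v f σ := by
  unfold ce
  rw [flip_flip, add_comm, add_comm (w (flip v σ)) (w σ)]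

theorem ip_comm (f g : (V → Bool) → ℝ) : ip w f g = ip w g f := by
  unfold ip
  exact Finset.sum_congr rfl fun σ _ => by ring

theorem ip_ce (hw : ∀ σ, 0 < w σ) (v : V) (f g : (V → Bool) → ℝ) :
    ip w g (ce w v f) = ip w (ce w v g) (ce w v f) := by
  have h1 : ip w g (ce w v f) =
      ∑ σ, w (flip v σ) * (g (flip v σ) * ce w v f σ) := by
    unfold ip
    rw [← sum_flip v]
    exact Finset.sum_congr rfl fun σ _ => by rw [ce_flip]
  have h2 : ip w (ce w v g) (ce w v f) =
      ∑ σ, w (flip v σ) * (ce w v g σ * ce w v f σ) := by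
    unfold ip
    rw [← sum_flip v]
    exact Finset.sum_congr rfl fun σ _ => by rw [ce_flip, ce_flip]
  have h3 : ip w g (ce w v f) + ∑ σ, w (flip v σ) * (g (flip v σ) * ce w v f σ) =
      ip w (ce w v g) (ce w v f) + ∑ σ, w (flip v σ) * (ce w v g σ * ce w v f σ) := by
    unfold ip
    rw [← Finset.sum_add_distrib, ← Finset.sum_add_distrib]
    refine Finset.sum_congr rfl fun σ _ => ?_
    have hpos : 0 < w σ + w (flip v σ) := add_pos (hw _) (hw _)
    have h4 : (w σ + w (flip v σ)) * ce w v g σ = w σ * g σ + w (flip v σ) * g (flip v σ) := by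
      unfold ce
      field_simp
    calc w σ * (g σ * ce w v f σ) + w (flip v σ) * (g (flip v σ) * ce w v f σ)
        = (w σ * g σ + w (flip v σ) * g (flip v σ)) * ce w v f σ := by ring
      _ = ((w σ + w (flip v σ)) * ce w v g σ) * ce w v f σ := by rw [h4]
      _ = _ := by ring
  linarith

theorem ip_sub_ce (hw : ∀ σ, 0 < w σ) (v : V) (f : (V → Bool) → ℝ) :
    ip w f f - ip w f (ce w v f) =
      (∑ σ, w σ * w (flip v σ) / (w σ + w (flip v σ)) * (f σ - f (flip v σ)) ^ 2) / 2 := by
  have key : ∀ σ, w σ * (f σ * f σ) - w σ * (f σ * ce w v f σ) =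
      w σ * w (flip v σ) / (w σ + w (flip v σ)) * (f σ * (f σ - f (flip v σ))) := by
    intro σ
    have hpos : w σ + w (flip v σ) ≠ 0 := (add_pos (hw _) (hw _)).ne'
    unfold ce
    field_simp
    ring
  have h1 : ip w f f - ip w f (ce w v f) =
      ∑ σ, w σ * w (flip v σ) / (w σ + w (flip v σ)) * (f σ * (f σ - f (flip v σ))) := by
    unfold ip
    rw [← Finset.sum_sub_distrib]
    exact Finset.sum_congr rfl fun σ _ => key σ
  have h2 : ip w f f - ip w f (ce w v f) =
      ∑ σ, w σ * w (flip v σ) / (w σ + w (flip v σ)) *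
        (f (flip v σ) * (f (flip v σ) - f σ)) := by
    rw [h1, ← sum_flip v]
    refine Finset.sum_congr rfl fun σ _ => ?_
    rw [flip_flip, mul_comm (w (flip v σ)) (w σ), add_comm (w (flip v σ)) (w σ)]
  have h3 : (∑ σ, w σ * w (flip v σ) / (w σ + w (flip v σ)) * (f σ - f (flip v σ)) ^ 2) =
      (∑ σ, w σ * w (flip v σ) / (w σ + w (flip v σ)) * (f σ * (f σ - f (flip v σ)))) +
      ∑ σ, w σ * w (flip v σ) / (w σ + w (flip v σ)) *
        (f (flip v σ) * (f (flip v σ) - f σ)) := by
    rw [← Finset.sum_add_distrib]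
    exact Finset.sum_congr rfl fun σ _ => by ring
  rw [h3, ← h1, ← h2]
  ring

theorem ip_sum_right (f : (V → Bool) → ℝ) (g : V → (V → Bool) → ℝ) :
    ip w f (fun σ => ∑ v, g v σ) = ∑ v, ip w f (g v) := by
  unfold ip
  rw [Finset.sum_comm]
  refine Finset.sum_congr rfl fun σ _ => ?_
  rw [Finset.mul_sum, Finset.mul_sum]

theorem dir_eq (hw : ∀ σ, 0 < w σ) (f : (V → Bool) → ℝ) :
    dir w f = 2 * ((Fintype.card V : ℝ) * ip w f f - ip w f (ceSum w f)) := by
  have h1 : ip w f (ceSum w f) = ∑ v, ip w f (ce w v f) := ip_sum_right f _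
  have h2 : (Fintype.card V : ℝ) * ip w f f = ∑ _v : V, ip w f f := by
    rw [Finset.sum_const, Finset.card_univ, nsmul_eq_mul]
  rw [h1, h2, ← Finset.sum_sub_distrib, Finset.mul_sum]
  unfold dir
  rw [Finset.sum_comm]
  refine Finset.sum_congr rfl fun v _ => ?_
  rw [ip_sub_ce hw]
  ring

theorem ip_ceSum_symm (hw : ∀ σ, 0 < w σ) (f g : (V → Bool) → ℝ) :
    ip w g (ceSum w f) = ip w (ceSum w g) f := by
  have h1 : ip w g (ceSum w f) = ∑ v, ip w g (ce w v f) := ip_sum_right g _
  have h2 : ip w (ceSum w g) f = ∑ v, ip w f (ce w v g) := by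
    rw [ip_comm]; exact ip_sum_right f _
  rw [h1, h2]
  refine Finset.sum_congr rfl fun v _ => ?_
  rw [ip_ce hw, ip_ce hw v g f, ip_comm]

theorem ip_self_nonneg (hw : ∀ σ, 0 < w σ) (f : (V → Bool) → ℝ) : 0 ≤ ip w f f :=
  Finset.sum_nonneg fun σ _ => mul_nonneg (hw σ).le (mul_self_nonneg _)

theorem ip_ceSum_nonneg (hw : ∀ σ, 0 < w σ) (f : (V → Bool) → ℝ) :
    0 ≤ ip w f (ceSum w f) := by
  have h1 : ip w f (ceSum w f) = ∑ v, ip w f (ce w v f) := ip_sum_right f _
  rw [h1]
  refine Finset.sum_nonneg fun v _ => ?_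
  rw [ip_ce hw]
  exact ip_self_nonneg hw _

/-- Bilinearity helpers. -/
theorem ip_add_left (f g h : (V → Bool) → ℝ) : ip w (fun σ => f σ + g σ) h =
    ip w f h + ip w g h := by
  unfold ip
  rw [← Finset.sum_add_distrib]
  exact Finset.sum_congr rfl fun σ _ => by ring

theorem ip_smul_left (c : ℝ) (f h : (V → Bool) → ℝ) : ip w (fun σ => c * f σ) h =
    c * ip w f h := by
  unfold ip
  rw [Finset.mul_sum]
  exact Finset.sum_congr rfl fun σ _ => by ring

theorem ip_add_right (f g h : (V → Bool) → ℝ) : ip w h (fun σ => f σ + g σ) =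
    ip w h f + ip w h g := by
  rw [ip_comm, ip_add_left, ip_comm, ip_comm g]

theorem ip_smul_right (c : ℝ) (f h : (V → Bool) → ℝ) : ip w h (fun σ => c * f σ) =
    c * ip w h f := by
  rw [ip_comm, ip_smul_left, ip_comm]

/-- Cauchy-Schwarz for the weighted inner product. -/
theorem ip_sq_le (hw : ∀ σ, 0 < w σ) (f g : (V → Bool) → ℝ) :
    ip w f g ^ 2 ≤ ip w f f * ip w g g := by
  have h := Finset.sum_mul_sq_le_sq_mul_sq Finset.univ
    (fun σ => Real.sqrt (w σ) * f σ) (fun σ => Real.sqrt (w σ) * g σ)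
  have hs : ∀ σ, Real.sqrt (w σ) * Real.sqrt (w σ) = w σ := fun σ =>
    Real.mul_self_sqrt (hw σ).le
  have e1 : ∑ σ, (Real.sqrt (w σ) * f σ) * (Real.sqrt (w σ) * g σ) = ip w f g := by
    unfold ip
    refine Finset.sum_congr rfl fun σ _ => ?_
    rw [← hs σ]
    rw [hs σ]
    linear_combination (f σ * g σ) * hs σ
  have e2 : ∀ k : (V → Bool) → ℝ, ∑ σ, (Real.sqrt (w σ) * k σ) ^ 2 = ip w k k := by
    intro k
    unfold ip
    refine Finset.sum_congr rfl fun σ _ => ?_
    linear_combination (k σ * k σ) * hs σ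
  rw [e1, e2, e2] at h
  exact h

/-- Cauchy-Schwarz for the positive semidefinite form `⟨x, A y⟩`. -/
theorem ip_ceSum_sq_le (hw : ∀ σ, 0 < w σ) (x y : (V → Bool) → ℝ) :
    ip w x (ceSum w y) ^ 2 ≤ ip w x (ceSum w x) * ip w y (ceSum w y) := by
  have hlin : ∀ t : ℝ, 0 ≤ ip w y (ceSum w y) * (t * t) +
      (2 * ip w x (ceSum w y)) * t + ip w x (ceSum w x) := by
    intro t
    have h0 := ip_ceSum_nonneg hw (fun σ => x σ + t * y σ)
    have hA : ceSum w (fun σ => x σ + t * y σ) =
        fun σ => ceSum w x σ + t * ceSum w y σ := by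
      funext σ
      unfold ceSum
      rw [Finset.mul_sum, ← Finset.sum_add_distrib]
      refine Finset.sum_congr rfl fun v _ => ?_
      unfold ce
      ring
    rw [hA] at h0
    have h1 : ip w (fun σ => x σ + t * y σ) (fun σ => ceSum w x σ + t * ceSum w y σ) =
        ip w x (ceSum w x) + t * ip w x (ceSum w y) + t * ip w y (ceSum w x) +
          t * t * ip w y (ceSum w y) := by
      unfold ip
      rw [Finset.mul_sum, Finset.mul_sum, Finset.mul_sum, ← Finset.sum_add_distrib,
        ← Finset.sum_add_distrib, ← Finset.sum_add_distrib]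
      exact Finset.sum_congr rfl fun σ _ => by ring
    have h2 : ip w y (ceSum w x) = ip w x (ceSum w y) := by
      rw [ip_ceSum_symm hw, ip_comm]
    rw [h1, h2] at h0
    linarith
  have hd := discrim_le_zero hlin
  unfold discrim at hd
  nlinarith

end Pool.Agent.Lib.MP_f82811_pr
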